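import Pool.Agent.Helper34.ThetaMap.Defs

/-!
# The action of `Sp(2g,ℤ)` on the Siegel upper half-space
-/

open Complex Matrix

namespace Pool.Agent.Helper34.ThetaMap

variable {g : ℕ}

/-- cast of an integral matrix to a complex matrix -/
abbrev cst (A : Matrix (Fin g) (Fin g) ℤ) : Matrix (Fin g) (Fin g) ℂ := A.map (Int.cast : ℤ → ℂ)

lemma cst_mul (A B : Matrix (Fin g) (Fin g) ℤ) : cst (A * B) = cst A * cst B := by
  ext i j
  simp [Matrix.mul_apply, cst]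

lemma cst_add (A B : Matrix (Fin g) (Fin g) ℤ) : cst (A + B) = cst A + cst B := by
  ext i j
  simp [cst]

lemma cst_sub (A B : Matrix (Fin g) (Fin g) ℤ) : cst (A - B) = cst A - cst B := by
  ext i j
  simp [cst]

lemma cst_transpose (A : Matrix (Fin g) (Fin g) ℤ) : cst Aᵀ = (cst A)ᵀ := by
  ext i j
  simp [cst]

lemma cst_one : cst (1 : Matrix (Fin g) (Fin g) ℤ) = 1 := by
  ext i j
  by_cases h : i = j <;> simp [cst, h, Matrix.one_apply]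

lemma cst_conjTranspose (A : Matrix (Fin g) (Fin g) ℤ) : (cst A)ᴴ = (cst A)ᵀ := by
  ext i j
  simp [cst]

/-- The block relations of a symplectic matrix. -/
structure Sp (γ : Matrix (Fin g ⊕ Fin g) (Fin g ⊕ Fin g) ℤ) : Prop where
  ac : γ.toBlocks₁₁ᵀ * γ.toBlocks₂₁ = γ.toBlocks₂₁ᵀ * γ.toBlocks₁₁
  bd : γ.toBlocks₁₂ᵀ * γ.toBlocks₂₂ = γ.toBlocks₂₂ᵀ * γ.toBlocks₁₂
  ad : γ.toBlocks₁₁ᵀ * γ.toBlocks₂₂ - γ.toBlocks₂₁ᵀ * γ.toBlocks₁₂ = 1
  da : γ.toBlocks₂₂ᵀ * γ.toBlocks₁₁ - γ.toBlocks₁₂ᵀ * γ.toBlocks₂₁ = 1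

lemma sp_of_mem {γ : Matrix (Fin g ⊕ Fin g) (Fin g ⊕ Fin g) ℤ}
    (h : γ ∈ Matrix.symplecticGroup (Fin g) ℤ) : Sp γ := by
  rw [SymplecticGroup.mem_iff'] at h
  have hγ : γ = Matrix.fromBlocks γ.toBlocks₁₁ γ.toBlocks₁₂ γ.toBlocks₂₁ γ.toBlocks₂₂ :=
    (Matrix.fromBlocks_toBlocks γ).symm
  generalize hA : γ.toBlocks₁₁ = A at *
  generalize hB : γ.toBlocks₁₂ = B at *
  generalize hC : γ.toBlocks₂₁ = C at *
  generalize hD : γ.toBlocks₂₂ = D at *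
  rw [hγ] at h
  rw [Matrix.J, Matrix.fromBlocks_transpose, Matrix.fromBlocks_multiply,
    Matrix.fromBlocks_multiply] at h
  rw [Matrix.fromBlocks_inj] at h
  obtain ⟨h1, h2, h3, h4⟩ := h
  simp only [Matrix.mul_zero, zero_add, Matrix.mul_one, Matrix.mul_neg, add_zero,
    Matrix.neg_mul] at h1 h2 h3 h4
  constructor
  · rw [hA, hC]
    linear_combination (norm := noncomm_ring) (-1 : ℤ) • h1
  · rw [hB, hD]
    linear_combination (norm := noncomm_ring) (-1 : ℤ) • h4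
  · rw [hA, hB, hC, hD]
    linear_combination (norm := noncomm_ring) (-1 : ℤ) • h2
  · rw [hA, hB, hC, hD]
    linear_combination (norm := noncomm_ring) h3


lemma num_den_symm {γ : Matrix (Fin g ⊕ Fin g) (Fin g ⊕ Fin g) ℤ} (h : Sp γ)
    {τ : Matrix (Fin g) (Fin g) ℂ} (hτ : τᵀ = τ) :
    (num γ τ)ᵀ * den γ τ = (den γ τ)ᵀ * num γ τ := by
  have h1 : (cst γ.toBlocks₁₁)ᵀ * cst γ.toBlocks₂₁ = (cst γ.toBlocks₂₁)ᵀ * cst γ.toBlocks₁₁ := by
    rw [← cst_transpose, ← cst_transpose, ← cst_mul, ← cst_mul, h.ac]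
  have h2 : (cst γ.toBlocks₁₂)ᵀ * cst γ.toBlocks₂₂ = (cst γ.toBlocks₂₂)ᵀ * cst γ.toBlocks₁₂ := by
    rw [← cst_transpose, ← cst_transpose, ← cst_mul, ← cst_mul, h.bd]
  have h3 : (cst γ.toBlocks₁₁)ᵀ * cst γ.toBlocks₂₂ - (cst γ.toBlocks₂₁)ᵀ * cst γ.toBlocks₁₂ = 1 := by
    rw [← cst_transpose, ← cst_transpose, ← cst_mul, ← cst_mul, ← cst_sub, h.ad, cst_one]
  have h4 : (cst γ.toBlocks₂₂)ᵀ * cst γ.toBlocks₁₁ - (cst γ.toBlocks₁₂)ᵀ * cst γ.toBlocks₂₁ = 1 := by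
    rw [← cst_transpose, ← cst_transpose, ← cst_mul, ← cst_mul, ← cst_sub, h.da, cst_one]
  unfold num den
  simp only [Matrix.transpose_add, Matrix.transpose_mul, hτ]
  linear_combination (norm := noncomm_ring) τ * h1 * τ + h2 + τ * h3 - h4 * τ

lemma num_den_conj {γ : Matrix (Fin g ⊕ Fin g) (Fin g ⊕ Fin g) ℤ} (h : Sp γ)
    (τ : Matrix (Fin g) (Fin g) ℂ) :
    (den γ τ)ᴴ * num γ τ - (num γ τ)ᴴ * den γ τ = τ - τᴴ := by
  have h1 : (cst γ.toBlocks₁₁)ᵀ * cst γ.toBlocks₂₁ = (cst γ.toBlocks₂₁)ᵀ * cst γ.toBlocks₁₁ := by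
    rw [← cst_transpose, ← cst_transpose, ← cst_mul, ← cst_mul, h.ac]
  have h2 : (cst γ.toBlocks₁₂)ᵀ * cst γ.toBlocks₂₂ = (cst γ.toBlocks₂₂)ᵀ * cst γ.toBlocks₁₂ := by
    rw [← cst_transpose, ← cst_transpose, ← cst_mul, ← cst_mul, h.bd]
  have h3 : (cst γ.toBlocks₁₁)ᵀ * cst γ.toBlocks₂₂ - (cst γ.toBlocks₂₁)ᵀ * cst γ.toBlocks₁₂ = 1 := by
    rw [← cst_transpose, ← cst_transpose, ← cst_mul, ← cst_mul, ← cst_sub, h.ad, cst_one]
  have h4 : (cst γ.toBlocks₂₂)ᵀ * cst γ.toBlocks₁₁ - (cst γ.toBlocks₁₂)ᵀ * cst γ.toBlocks₂₁ = 1 := by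
    rw [← cst_transpose, ← cst_transpose, ← cst_mul, ← cst_mul, ← cst_sub, h.da, cst_one]
  unfold num den
  simp only [Matrix.conjTranspose_add, Matrix.conjTranspose_mul]
  have e1 := cst_conjTranspose γ.toBlocks₁₁
  have e2 := cst_conjTranspose γ.toBlocks₁₂
  have e3 := cst_conjTranspose γ.toBlocks₂₁
  have e4 := cst_conjTranspose γ.toBlocks₂₂
  simp only [cst] at e1 e2 e3 e4 h1 h2 h3 h4
  rw [e1, e2, e3, e4]
  linear_combination (norm := noncomm_ring) (-1 : ℤ) • (τᴴ * h1 * τ) - h2 - τᴴ * h3 + h4 * τ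

lemma mat_symm (τ : SymMat g) : (mat τ)ᵀ = mat τ := by
  ext i j
  change τ s(j, i) = τ s(i, j)
  rw [Sym2.eq_swap]

/-- the point of `SymMat g` with given symmetric matrix -/
def ofMat (M : Fin g → Fin g → ℂ) (hM : ∀ i j, M i j = M j i) : SymMat g :=
  Sym2.lift ⟨M, hM⟩

lemma mat_ofMat (M : Fin g → Fin g → ℂ) (hM : ∀ i j, M i j = M j i) :
    mat (ofMat M hM) = Matrix.of M := rfl

/-- The quadratic form of a positive definite real matrix is positive on nonzero complex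
vectors. -/
lemma pos_complex {A : Matrix (Fin g) (Fin g) ℝ} (hA : A.PosDef) {y : Fin g → ℂ} (hy : y ≠ 0) :
    0 < (star y ⬝ᵥ (A.map (fun x : ℝ => (x : ℂ)) *ᵥ y)).re := by
  have hs : ∀ i j, A i j = A j i := by
    intro i j
    have := congrFun (congrFun hA.1 j) i
    simpa [Matrix.conjTranspose_apply] using this
  have key : (star y ⬝ᵥ (A.map (fun x : ℝ => (x : ℂ)) *ᵥ y)).re
      = (fun i => (y i).re) ⬝ᵥ (A *ᵥ (fun i => (y i).re))
        + (fun i => (y i).im) ⬝ᵥ (A *ᵥ (fun i => (y i).im)) := by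
    simp only [dotProduct, Matrix.mulVec, Matrix.map_apply, Pi.star_apply, Complex.re_sum,
      Finset.mul_sum, ← Finset.sum_add_distrib]
    refine Finset.sum_congr rfl fun i _ => Finset.sum_congr rfl fun j _ => ?_
    simp
  rw [key]
  have nn : ∀ x : Fin g → ℝ, 0 ≤ x ⬝ᵥ (A *ᵥ x) := by
    intro x
    have := hA.posSemidef.dotProduct_mulVec_nonneg x
    simpa using this
  have pp : ∀ x : Fin g → ℝ, x ≠ 0 → 0 < x ⬝ᵥ (A *ᵥ x) := by
    intro x hx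
    have := hA.dotProduct_mulVec_pos hx
    simpa using this
  by_cases h1 : (fun i => (y i).re) = 0
  · have h2 : (fun i => (y i).im) ≠ 0 := by
      intro h2
      apply hy
      funext i
      exact Complex.ext (congrFun h1 i) (congrFun h2 i)
    have := pp _ h2
    have := nn (fun i => (y i).re)
    linarith
  · have := pp _ h1
    have := nn (fun i => (y i).im)
    linarith

lemma sub_conj_eq {τ : Matrix (Fin g) (Fin g) ℂ} (hτ : τᵀ = τ) :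
    τ - τᴴ = (2 * I) • (τ.map Complex.im).map (fun x : ℝ => (x : ℂ)) := by
  ext i j
  have h : τ j i = τ i j := congrFun (congrFun hτ i) j
  simp only [Matrix.sub_apply, Matrix.conjTranspose_apply, Matrix.smul_apply, Matrix.map_apply,
    smul_eq_mul, h, Complex.star_def]
  apply Complex.ext <;> simp
  ring

lemma det_den_ne_zero {γ : Matrix (Fin g ⊕ Fin g) (Fin g ⊕ Fin g) ℤ} (h : Sp γ)
    {τ : SymMat g} (hτ : τ ∈ siegel g) : (den γ (mat τ)).det ≠ 0 := by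
  intro hdet
  obtain ⟨v, hv, hQ⟩ := Matrix.exists_mulVec_eq_zero_iff.2 hdet
  have h1 := num_den_conj h (mat τ)
  have h2 : star v ⬝ᵥ (((den γ (mat τ))ᴴ * num γ (mat τ) - (num γ (mat τ))ᴴ * den γ (mat τ)) *ᵥ v)
      = 0 := by
    rw [Matrix.sub_mulVec, dotProduct_sub, ← Matrix.mulVec_mulVec, ← Matrix.mulVec_mulVec, hQ,
      Matrix.mulVec_zero, dotProduct_zero, sub_zero, Matrix.dotProduct_mulVec,
      ← Matrix.star_mulVec, hQ]
    simp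
  rw [h1, sub_conj_eq (mat_symm τ), Matrix.smul_mulVec, dotProduct_smul, smul_eq_mul] at h2
  have h3 := pos_complex hτ hv
  have h4 : star v ⬝ᵥ (((mat τ).map Complex.im).map (fun x : ℝ => (x : ℂ)) *ᵥ v) = 0 := by
    rcases mul_eq_zero.1 h2 with h | h
    · simp at h
    · exact h
  rw [h4] at h3
  simp at h3


lemma act_mul_den {γ : Matrix (Fin g ⊕ Fin g) (Fin g ⊕ Fin g) ℤ}
    {τ : Matrix (Fin g) (Fin g) ℂ} (hd : (den γ τ).det ≠ 0) :
    act γ τ * den γ τ = num γ τ := by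
  rw [act, Matrix.mul_assoc, Matrix.nonsing_inv_mul _ (isUnit_iff_ne_zero.2 hd), Matrix.mul_one]

lemma act_symm {γ : Matrix (Fin g ⊕ Fin g) (Fin g ⊕ Fin g) ℤ} (h : Sp γ)
    {τ : Matrix (Fin g) (Fin g) ℂ} (hτ : τᵀ = τ) (hd : (den γ τ).det ≠ 0) :
    (act γ τ)ᵀ = act γ τ := by
  have hu : IsUnit (den γ τ).det := isUnit_iff_ne_zero.2 hd
  have hut : IsUnit (den γ τ)ᵀ.det := by rwa [Matrix.det_transpose]
  have h1 := num_den_symm h hτ
  have h2 := act_mul_den hd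
  -- Qᵀ (act)ᵀ Q = Pᵀ Q = Qᵀ P = Qᵀ act Q
  have h3 : (den γ τ)ᵀ * (act γ τ)ᵀ * den γ τ = (den γ τ)ᵀ * act γ τ * den γ τ := by
    rw [← Matrix.transpose_mul, h2, h1, Matrix.mul_assoc, h2]
  have h4 : (den γ τ)ᵀ * (act γ τ)ᵀ = (den γ τ)ᵀ * act γ τ := by
    have := congrArg (fun M => M * (den γ τ)⁻¹) h3
    simpa [Matrix.mul_assoc, Matrix.mul_nonsing_inv _ hu] using this
  have := congrArg (fun M => ((den γ τ)ᵀ)⁻¹ * M) h4
  simpa [← Matrix.mul_assoc, Matrix.nonsing_inv_mul _ hut] using this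

lemma act_conj {γ : Matrix (Fin g ⊕ Fin g) (Fin g ⊕ Fin g) ℤ} (h : Sp γ)
    {τ : Matrix (Fin g) (Fin g) ℂ} (hd : (den γ τ).det ≠ 0) :
    (den γ τ)ᴴ * (act γ τ - (act γ τ)ᴴ) * den γ τ = τ - τᴴ := by
  rw [← num_den_conj h τ, Matrix.mul_sub, Matrix.sub_mul, Matrix.mul_assoc, act_mul_den hd,
    ← Matrix.conjTranspose_mul, act_mul_den hd]

/-- `Qᴴ (Im γτ) Q = Im τ`. -/
lemma im_act {γ : Matrix (Fin g ⊕ Fin g) (Fin g ⊕ Fin g) ℤ} (h : Sp γ)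
    {τ : Matrix (Fin g) (Fin g) ℂ} (hτ : τᵀ = τ) (hd : (den γ τ).det ≠ 0) :
    (den γ τ)ᴴ * ((act γ τ).map Complex.im).map (fun x : ℝ => (x : ℂ)) * den γ τ
      = (τ.map Complex.im).map (fun x : ℝ => (x : ℂ)) := by
  have h1 := act_conj h hd
  rw [sub_conj_eq hτ, sub_conj_eq (act_symm h hτ hd), Matrix.mul_smul, Matrix.smul_mul] at h1
  have h2 : (2 * I : ℂ) ≠ 0 := by simp
  exact smul_right_injective _ h2 h1

lemma posDef_of_posDef_act {γ : Matrix (Fin g ⊕ Fin g) (Fin g ⊕ Fin g) ℤ} (h : Sp γ)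
    {τ : Matrix (Fin g) (Fin g) ℂ} (hτ : τᵀ = τ) (hd : (den γ τ).det ≠ 0)
    (hp : ((act γ τ).map Complex.im).PosDef) : (τ.map Complex.im).PosDef := by
  refine Matrix.PosDef.of_dotProduct_mulVec_pos ?_ ?_
  · ext i j
    have : τ j i = τ i j := congrFun (congrFun hτ i) j
    simp [Matrix.conjTranspose_apply, this]
  · intro x hx
    have hx' : (fun i => (x i : ℂ)) ≠ 0 := by
      intro h0
      apply hx
      funext i
      have := congrFun h0 i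
      simpa using this
    have hy : den γ τ *ᵥ (fun i => (x i : ℂ)) ≠ 0 := by
      intro h0
      exact hd (Matrix.exists_mulVec_eq_zero_iff.1 ⟨_, hx', h0⟩)
    have h1 := pos_complex hp hy
    rw [Matrix.star_mulVec, Matrix.dotProduct_mulVec, ← Matrix.dotProduct_mulVec,
      ← Matrix.dotProduct_mulVec, Matrix.mulVec_mulVec, Matrix.mulVec_mulVec,
      im_act h hτ hd] at h1
    have h2 : (star (fun i => (x i : ℂ)) ⬝ᵥ
        ((τ.map Complex.im).map (fun x : ℝ => (x : ℂ)) *ᵥ (fun i => (x i : ℂ)))).re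
        = x ⬝ᵥ (τ.map Complex.im *ᵥ x) := by
      simp [dotProduct, Matrix.mulVec, Complex.re_sum]
    rw [h2] at h1
    simpa using h1

lemma posDef_act {γ : Matrix (Fin g ⊕ Fin g) (Fin g ⊕ Fin g) ℤ} (h : Sp γ)
    {τ : Matrix (Fin g) (Fin g) ℂ} (hτ : τᵀ = τ) (hd : (den γ τ).det ≠ 0)
    (hp : (τ.map Complex.im).PosDef) : ((act γ τ).map Complex.im).PosDef := by
  refine Matrix.PosDef.of_dotProduct_mulVec_pos ?_ ?_
  · ext i j
    have : act γ τ j i = act γ τ i j := congrFun (congrFun (act_symm h hτ hd) i) j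
    simp [Matrix.conjTranspose_apply, this]
  · intro x hx
    have hx' : (fun i => (x i : ℂ)) ≠ 0 := by
      intro h0
      apply hx
      funext i
      have := congrFun h0 i
      simpa using this
    have hu : IsUnit (den γ τ).det := isUnit_iff_ne_zero.2 hd
    have hy : (den γ τ)⁻¹ *ᵥ (fun i => (x i : ℂ)) ≠ 0 := by
      intro h0
      apply hx'
      have := congrArg (fun v => den γ τ *ᵥ v) h0
      simpa [Matrix.mulVec_mulVec, Matrix.mul_nonsing_inv _ hu] using this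
    have h1 := pos_complex hp hy
    rw [← im_act h hτ hd, Matrix.mulVec_mulVec, Matrix.mul_assoc, Matrix.mul_assoc,
      Matrix.mul_nonsing_inv _ hu, Matrix.mul_one, ← Matrix.mulVec_mulVec,
      Matrix.star_mulVec, Matrix.dotProduct_mulVec, Matrix.vecMul_vecMul,
      ← Matrix.conjTranspose_mul, Matrix.mul_nonsing_inv _ hu, Matrix.conjTranspose_one,
      Matrix.vecMul_one] at h1
    have h2 : (star (fun i => (x i : ℂ)) ⬝ᵥ
        (((act γ τ).map Complex.im).map (fun x : ℝ => (x : ℂ)) *ᵥ (fun i => (x i : ℂ)))).re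
        = x ⬝ᵥ ((act γ τ).map Complex.im *ᵥ x) := by
      simp [dotProduct, Matrix.mulVec, Complex.re_sum]
    rw [h2] at h1
    simpa using h1


lemma toBlocks₁₁_mul (M N : Matrix (Fin g ⊕ Fin g) (Fin g ⊕ Fin g) ℤ) :
    (M * N).toBlocks₁₁ = M.toBlocks₁₁ * N.toBlocks₁₁ + M.toBlocks₁₂ * N.toBlocks₂₁ := by
  ext i j
  simp [Matrix.toBlocks₁₁, Matrix.toBlocks₁₂, Matrix.toBlocks₂₁, Matrix.mul_apply]

lemma toBlocks₁₂_mul (M N : Matrix (Fin g ⊕ Fin g) (Fin g ⊕ Fin g) ℤ) :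
    (M * N).toBlocks₁₂ = M.toBlocks₁₁ * N.toBlocks₁₂ + M.toBlocks₁₂ * N.toBlocks₂₂ := by
  ext i j
  simp [Matrix.toBlocks₁₁, Matrix.toBlocks₁₂, Matrix.toBlocks₂₂, Matrix.mul_apply]

lemma toBlocks₂₁_mul (M N : Matrix (Fin g ⊕ Fin g) (Fin g ⊕ Fin g) ℤ) :
    (M * N).toBlocks₂₁ = M.toBlocks₂₁ * N.toBlocks₁₁ + M.toBlocks₂₂ * N.toBlocks₂₁ := by
  ext i j
  simp [Matrix.toBlocks₁₁, Matrix.toBlocks₂₁, Matrix.toBlocks₂₂, Matrix.mul_apply]

lemma toBlocks₂₂_mul (M N : Matrix (Fin g ⊕ Fin g) (Fin g ⊕ Fin g) ℤ) :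
    (M * N).toBlocks₂₂ = M.toBlocks₂₁ * N.toBlocks₁₂ + M.toBlocks₂₂ * N.toBlocks₂₂ := by
  ext i j
  simp [Matrix.toBlocks₁₂, Matrix.toBlocks₂₁, Matrix.toBlocks₂₂, Matrix.mul_apply]

lemma num_mul (M N : Matrix (Fin g ⊕ Fin g) (Fin g ⊕ Fin g) ℤ) {τ : Matrix (Fin g) (Fin g) ℂ}
    (hd : (den N τ).det ≠ 0) : num (M * N) τ = num M (act N τ) * den N τ := by
  have h := act_mul_den hd
  have h' : num M (act N τ) * den N τ
      = cst M.toBlocks₁₁ * (act N τ * den N τ) + cst M.toBlocks₁₂ * den N τ := by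
    rw [num, Matrix.add_mul, Matrix.mul_assoc]
  rw [h', h, num, toBlocks₁₁_mul, toBlocks₁₂_mul]
  change cst _ * τ + cst _ = _
  rw [cst_add, cst_add, cst_mul, cst_mul, cst_mul, cst_mul, num, den]
  change _ = cst _ * (cst _ * τ + cst _) + cst _ * (cst _ * τ + cst _)
  noncomm_ring

lemma den_mul (M N : Matrix (Fin g ⊕ Fin g) (Fin g ⊕ Fin g) ℤ) {τ : Matrix (Fin g) (Fin g) ℂ}
    (hd : (den N τ).det ≠ 0) : den (M * N) τ = den M (act N τ) * den N τ := by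
  have h := act_mul_den hd
  have h' : den M (act N τ) * den N τ
      = cst M.toBlocks₂₁ * (act N τ * den N τ) + cst M.toBlocks₂₂ * den N τ := by
    rw [den, Matrix.add_mul, Matrix.mul_assoc]
  rw [h', h, den, toBlocks₂₁_mul, toBlocks₂₂_mul]
  change cst _ * τ + cst _ = _
  rw [cst_add, cst_add, cst_mul, cst_mul, cst_mul, cst_mul, num, den]
  change _ = cst _ * (cst _ * τ + cst _) + cst _ * (cst _ * τ + cst _)
  noncomm_ring

/-- the action is a left action -/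
lemma act_mul (M N : Matrix (Fin g ⊕ Fin g) (Fin g ⊕ Fin g) ℤ) {τ : Matrix (Fin g) (Fin g) ℂ}
    (hd : (den N τ).det ≠ 0) : act (M * N) τ = act M (act N τ) := by
  rw [act, num_mul M N hd, den_mul M N hd, Matrix.mul_inv_rev, Matrix.mul_assoc,
    ← Matrix.mul_assoc (den N τ), Matrix.mul_nonsing_inv _ (isUnit_iff_ne_zero.2 hd),
    Matrix.one_mul]
  rfl

lemma toBlocks_one :
    (1 : Matrix (Fin g ⊕ Fin g) (Fin g ⊕ Fin g) ℤ).toBlocks₁₁ = 1 ∧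
    (1 : Matrix (Fin g ⊕ Fin g) (Fin g ⊕ Fin g) ℤ).toBlocks₁₂ = 0 ∧
    (1 : Matrix (Fin g ⊕ Fin g) (Fin g ⊕ Fin g) ℤ).toBlocks₂₁ = 0 ∧
    (1 : Matrix (Fin g ⊕ Fin g) (Fin g ⊕ Fin g) ℤ).toBlocks₂₂ = 1 := by
  refine ⟨?_, ?_, ?_, ?_⟩ <;> ext i j <;>
    simp [Matrix.toBlocks₁₁, Matrix.toBlocks₁₂, Matrix.toBlocks₂₁, Matrix.toBlocks₂₂,
      Matrix.one_apply]

lemma act_one (τ : Matrix (Fin g) (Fin g) ℂ) :
    act (1 : Matrix (Fin g ⊕ Fin g) (Fin g ⊕ Fin g) ℤ) τ = τ := by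
  obtain ⟨h1, h2, h3, h4⟩ := toBlocks_one (g := g)
  have z : (0 : Matrix (Fin g) (Fin g) ℤ).map (Int.cast : ℤ → ℂ) = 0 := by ext; simp
  have o : (1 : Matrix (Fin g) (Fin g) ℤ).map (Int.cast : ℤ → ℂ) = 1 := cst_one
  rw [act, num, den, h1, h2, h3, h4, z, o]
  simp

/-- The principal congruence subgroup of level 2, as a set of matrices. -/
def Gamma2 (g : ℕ) : Set (Matrix (Fin g ⊕ Fin g) (Fin g ⊕ Fin g) ℤ) :=
  {γ | γ ∈ Matrix.symplecticGroup (Fin g) ℤ ∧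
      ∀ i j, (2 : ℤ) ∣ γ i j - (1 : Matrix (Fin g ⊕ Fin g) (Fin g ⊕ Fin g) ℤ) i j}

lemma Gamma24_subset : Gamma24 g ⊆ Gamma2 g := fun _ h => ⟨h.1, h.2.1⟩

/-- Inside `Γ_g(2)`, the diagonal conditions only concern `b` and `c`. -/
lemma mem_Gamma24_iff {γ : Matrix (Fin g ⊕ Fin g) (Fin g ⊕ Fin g) ℤ} :
    γ ∈ Gamma24 g ↔ γ ∈ Gamma2 g ∧ (∀ i, (4 : ℤ) ∣ γ.toBlocks₁₂ i i) ∧
      (∀ i, (4 : ℤ) ∣ γ.toBlocks₂₁ i i) := by
  -- general congruence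
  have key : ∀ A B : Matrix (Fin g) (Fin g) ℤ,
      (∀ i j, (2 : ℤ) ∣ A i j - (1 : Matrix (Fin g) (Fin g) ℤ) i j) → (∀ i j, (2 : ℤ) ∣ B i j) →
      ∀ i, (4 : ℤ) ∣ (A * Bᵀ) i i - B i i := by
    intro A B hA hB i
    have : (A * Bᵀ) i i - B i i = ((A - 1) * Bᵀ) i i := by
      rw [Matrix.sub_mul, Matrix.one_mul]
      rfl
    rw [this, Matrix.mul_apply]
    refine Finset.dvd_sum fun j _ => ?_
    have h1 := hA i j
    have h2 := hB i j
    have : (4 : ℤ) = 2 * 2 := by norm_num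
    rw [this]
    exact mul_dvd_mul h1 h2
  have blocks : γ ∈ Gamma2 g →
      (∀ i j, (2 : ℤ) ∣ γ.toBlocks₁₁ i j - (1 : Matrix (Fin g) (Fin g) ℤ) i j) ∧
      (∀ i j, (2 : ℤ) ∣ γ.toBlocks₁₂ i j) ∧ (∀ i j, (2 : ℤ) ∣ γ.toBlocks₂₁ i j) ∧
      (∀ i j, (2 : ℤ) ∣ γ.toBlocks₂₂ i j - (1 : Matrix (Fin g) (Fin g) ℤ) i j) := by
    intro h
    refine ⟨fun i j => ?_, fun i j => ?_, fun i j => ?_, fun i j => ?_⟩
    · have := h.2 (Sum.inl i) (Sum.inl j)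
      simpa [Matrix.toBlocks₁₁, Matrix.one_apply] using this
    · have := h.2 (Sum.inl i) (Sum.inr j)
      simpa [Matrix.toBlocks₁₂, Matrix.one_apply] using this
    · have := h.2 (Sum.inr i) (Sum.inl j)
      simpa [Matrix.toBlocks₂₁, Matrix.one_apply] using this
    · have := h.2 (Sum.inr i) (Sum.inr j)
      simpa [Matrix.toBlocks₂₂, Matrix.one_apply] using this
  constructor
  · rintro ⟨h1, h2, h3, h4⟩
    have hg : γ ∈ Gamma2 g := ⟨h1, h2⟩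
    obtain ⟨b1, b2, b3, b4⟩ := blocks hg
    refine ⟨hg, fun i => ?_, fun i => ?_⟩
    · have := key _ _ b1 b2 i
      have := dvd_sub (h3 i) this
      simpa using this
    · -- `(c dᵀ)_ii = (d cᵀ)_ii`
      have e : (γ.toBlocks₂₁ * γ.toBlocks₂₂ᵀ) i i = (γ.toBlocks₂₂ * γ.toBlocks₂₁ᵀ) i i := by
        rw [Matrix.mul_apply, Matrix.mul_apply]
        exact Finset.sum_congr rfl fun j _ => by
          rw [Matrix.transpose_apply, Matrix.transpose_apply, mul_comm]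
      have := key _ _ b4 b3 i
      have h4' := h4 i
      rw [e] at h4'
      have := dvd_sub h4' this
      simpa using this
  · rintro ⟨hg, h3, h4⟩
    obtain ⟨b1, b2, b3, b4⟩ := blocks hg
    refine ⟨hg.1, hg.2, fun i => ?_, fun i => ?_⟩
    · have := key _ _ b1 b2 i
      have := dvd_add this (h3 i)
      simpa using this
    · have e : (γ.toBlocks₂₁ * γ.toBlocks₂₂ᵀ) i i = (γ.toBlocks₂₂ * γ.toBlocks₂₁ᵀ) i i := by
        rw [Matrix.mul_apply, Matrix.mul_apply]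
        exact Finset.sum_congr rfl fun j _ => by
          rw [Matrix.transpose_apply, Matrix.transpose_apply, mul_comm]
      rw [e]
      have := key _ _ b4 b3 i
      have := dvd_add this (h4 i)
      simpa using this


lemma Gamma2_blocks {γ : Matrix (Fin g ⊕ Fin g) (Fin g ⊕ Fin g) ℤ} (h : γ ∈ Gamma2 g) :
      (∀ i j, (2 : ℤ) ∣ γ.toBlocks₁₁ i j - (1 : Matrix (Fin g) (Fin g) ℤ) i j) ∧
      (∀ i j, (2 : ℤ) ∣ γ.toBlocks₁₂ i j) ∧ (∀ i j, (2 : ℤ) ∣ γ.toBlocks₂₁ i j) ∧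
      (∀ i j, (2 : ℤ) ∣ γ.toBlocks₂₂ i j - (1 : Matrix (Fin g) (Fin g) ℤ) i j) := by
  refine ⟨fun i j => ?_, fun i j => ?_, fun i j => ?_, fun i j => ?_⟩
  · have := h.2 (Sum.inl i) (Sum.inl j)
    simpa [Matrix.toBlocks₁₁, Matrix.one_apply] using this
  · have := h.2 (Sum.inl i) (Sum.inr j)
    simpa [Matrix.toBlocks₁₂, Matrix.one_apply] using this
  · have := h.2 (Sum.inr i) (Sum.inl j)
    simpa [Matrix.toBlocks₂₁, Matrix.one_apply] using this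
  · have := h.2 (Sum.inr i) (Sum.inr j)
    simpa [Matrix.toBlocks₂₂, Matrix.one_apply] using this

lemma Gamma2_mul {M N : Matrix (Fin g ⊕ Fin g) (Fin g ⊕ Fin g) ℤ} (hM : M ∈ Gamma2 g)
    (hN : N ∈ Gamma2 g) : M * N ∈ Gamma2 g := by
  refine ⟨Submonoid.mul_mem _ hM.1 hN.1, fun i j => ?_⟩
  have : (M * N) i j - (1 : Matrix (Fin g ⊕ Fin g) (Fin g ⊕ Fin g) ℤ) i j
      = ((M - 1) * N) i j + (N i j - (1 : Matrix (Fin g ⊕ Fin g) (Fin g ⊕ Fin g) ℤ) i j) := by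
    rw [Matrix.sub_mul, Matrix.one_mul, Matrix.sub_apply]
    ring
  rw [this]
  refine dvd_add ?_ (hN.2 i j)
  rw [Matrix.mul_apply]
  exact Finset.dvd_sum fun k _ => Dvd.dvd.mul_right (hM.2 i k) _

lemma Gamma24_mul {M N : Matrix (Fin g ⊕ Fin g) (Fin g ⊕ Fin g) ℤ} (hM : M ∈ Gamma24 g)
    (hN : N ∈ Gamma24 g) : M * N ∈ Gamma24 g := by
  rw [mem_Gamma24_iff] at hM hN ⊢
  obtain ⟨hM, hMb, hMc⟩ := hM
  obtain ⟨hN, hNb, hNc⟩ := hN
  obtain ⟨m1, m2, m3, m4⟩ := Gamma2_blocks hM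
  obtain ⟨n1, n2, n3, n4⟩ := Gamma2_blocks hN
  have four : (4 : ℤ) = 2 * 2 := by norm_num
  refine ⟨Gamma2_mul hM hN, fun i => ?_, fun i => ?_⟩
  · rw [toBlocks₁₂_mul]
    have : (M.toBlocks₁₁ * N.toBlocks₁₂ + M.toBlocks₁₂ * N.toBlocks₂₂) i i
        = ((M.toBlocks₁₁ - 1) * N.toBlocks₁₂) i i + N.toBlocks₁₂ i i
          + ((M.toBlocks₁₂ * (N.toBlocks₂₂ - 1)) i i + M.toBlocks₁₂ i i) := by
      rw [Matrix.sub_mul, Matrix.one_mul, Matrix.mul_sub, Matrix.mul_one, Matrix.sub_apply,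
        Matrix.sub_apply, Matrix.add_apply]
      ring
    rw [this]
    refine dvd_add (dvd_add ?_ (hNb i)) (dvd_add ?_ (hMb i))
    · rw [Matrix.mul_apply, four]
      exact Finset.dvd_sum fun k _ => mul_dvd_mul (m1 i k) (n2 k i)
    · rw [Matrix.mul_apply, four]
      exact Finset.dvd_sum fun k _ => mul_dvd_mul (m2 i k) (n4 k i)
  · rw [toBlocks₂₁_mul]
    have : (M.toBlocks₂₁ * N.toBlocks₁₁ + M.toBlocks₂₂ * N.toBlocks₂₁) i i
        = ((M.toBlocks₂₁ * (N.toBlocks₁₁ - 1)) i i + M.toBlocks₂₁ i i)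
          + (((M.toBlocks₂₂ - 1) * N.toBlocks₂₁) i i + N.toBlocks₂₁ i i) := by
      rw [Matrix.sub_mul, Matrix.one_mul, Matrix.mul_sub, Matrix.mul_one, Matrix.sub_apply,
        Matrix.sub_apply, Matrix.add_apply]
      ring
    rw [this]
    refine dvd_add (dvd_add ?_ (hMc i)) (dvd_add ?_ (hNc i))
    · rw [Matrix.mul_apply, four]
      exact Finset.dvd_sum fun k _ => mul_dvd_mul (m3 i k) (n1 k i)
    · rw [Matrix.mul_apply, four]
      exact Finset.dvd_sum fun k _ => mul_dvd_mul (m4 i k) (n3 k i)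

/-- The inverse of a symplectic matrix. -/
def ginv (γ : Matrix (Fin g ⊕ Fin g) (Fin g ⊕ Fin g) ℤ) :
    Matrix (Fin g ⊕ Fin g) (Fin g ⊕ Fin g) ℤ :=
  Matrix.fromBlocks γ.toBlocks₂₂ᵀ (-γ.toBlocks₁₂ᵀ) (-γ.toBlocks₂₁ᵀ) γ.toBlocks₁₁ᵀ

lemma ginv_eq (γ : Matrix (Fin g ⊕ Fin g) (Fin g ⊕ Fin g) ℤ) :
    ginv γ = -(Matrix.J (Fin g) ℤ * γᵀ * Matrix.J (Fin g) ℤ) := by
  conv_rhs => rw [← Matrix.fromBlocks_toBlocks γ]
  rw [Matrix.J, Matrix.fromBlocks_transpose, Matrix.fromBlocks_multiply,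
    Matrix.fromBlocks_multiply, Matrix.fromBlocks_neg, ginv]
  simp

lemma ginv_mem_sp {γ : Matrix (Fin g ⊕ Fin g) (Fin g ⊕ Fin g) ℤ}
    (h : γ ∈ Matrix.symplecticGroup (Fin g) ℤ) : ginv γ ∈ Matrix.symplecticGroup (Fin g) ℤ := by
  rw [ginv_eq]
  refine SymplecticGroup.neg_mem (Submonoid.mul_mem _ (Submonoid.mul_mem _ ?_ ?_) ?_)
  · exact SymplecticGroup.J_mem _ _
  · exact SymplecticGroup.transpose_mem h
  · exact SymplecticGroup.J_mem _ _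

lemma ginv_mul {γ : Matrix (Fin g ⊕ Fin g) (Fin g ⊕ Fin g) ℤ} (h : Sp γ) : ginv γ * γ = 1 := by
  conv_lhs => rw [← Matrix.fromBlocks_toBlocks γ]
  rw [ginv]
  simp only [Matrix.toBlocks_fromBlocks₁₁, Matrix.toBlocks_fromBlocks₁₂,
    Matrix.toBlocks_fromBlocks₂₁, Matrix.toBlocks_fromBlocks₂₂]
  rw [Matrix.fromBlocks_multiply, ← Matrix.fromBlocks_one, Matrix.fromBlocks_inj]
  refine ⟨?_, ?_, ?_, ?_⟩
  · rw [← h.da]; noncomm_ring
  · rw [← sub_eq_zero.2 h.bd.symm]; noncomm_ring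
  · rw [← sub_eq_zero.2 h.ac]; noncomm_ring
  · rw [← h.ad]; noncomm_ring

lemma ginv_mem_Gamma24 {γ : Matrix (Fin g ⊕ Fin g) (Fin g ⊕ Fin g) ℤ} (h : γ ∈ Gamma24 g) :
    ginv γ ∈ Gamma24 g := by
  rw [mem_Gamma24_iff] at h ⊢
  obtain ⟨h1, h2, h3⟩ := h
  obtain ⟨b1, b2, b3, b4⟩ := Gamma2_blocks h1
  refine ⟨⟨ginv_mem_sp h1.1, ?_⟩, fun i => ?_, fun i => ?_⟩
  · rintro (i | i) (j | j)
    · have := b4 j i
      simpa [ginv, Matrix.one_apply, eq_comm] using this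
    · have := b2 j i
      simpa [ginv, Matrix.one_apply] using this
    · have := b3 j i
      simpa [ginv, Matrix.one_apply] using this
    · have := b1 j i
      simpa [ginv, Matrix.one_apply, eq_comm] using this
  · have := h2 i
    simpa [ginv] using this
  · have := h3 i
    simpa [ginv] using this

/-- If `τ' = γ τ` with `γ ∈ Γ_g(2,4)` and `τ ∈ ℍ_g`, then `τ = γ⁻¹ τ'`. -/
lemma act_ginv_act {γ : Matrix (Fin g ⊕ Fin g) (Fin g ⊕ Fin g) ℤ} (h : Sp γ)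
    {τ : Matrix (Fin g) (Fin g) ℂ} (hd : (den γ τ).det ≠ 0) : act (ginv γ) (act γ τ) = τ := by
  rw [← act_mul _ _ hd, ginv_mul h, act_one]

lemma act_apply_symm {γ : Matrix (Fin g ⊕ Fin g) (Fin g ⊕ Fin g) ℤ} (h : Sp γ)
    (τ : SymMat g) (hd : (den γ (mat τ)).det ≠ 0) (i j : Fin g) :
    act γ (mat τ) i j = act γ (mat τ) j i := by
  have := congrFun (congrFun (act_symm h (mat_symm τ) hd) j) i
  simpa using this


lemma Gamma24.sp {γ : Matrix (Fin g ⊕ Fin g) (Fin g ⊕ Fin g) ℤ} (h : γ ∈ Gamma24 g) : Sp γ :=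
  sp_of_mem h.1

lemma SamePoint.trans {τ τ' τ'' : SymMat g} (hτ : τ ∈ siegel g) (h : SamePoint τ τ')
    (h' : SamePoint τ' τ'') : SamePoint τ τ'' := by
  obtain ⟨γ, hγ, e⟩ := h
  obtain ⟨γ', hγ', e'⟩ := h'
  refine ⟨γ' * γ, Gamma24_mul hγ' hγ, ?_⟩
  rw [act_mul _ _ (det_den_ne_zero (sp_of_mem hγ.1) hτ), ← e, ← e']

lemma SamePoint.symm {τ τ' : SymMat g} (hτ : τ ∈ siegel g) (h : SamePoint τ τ') :
    SamePoint τ' τ := by
  obtain ⟨γ, hγ, e⟩ := h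
  refine ⟨ginv γ, ginv_mem_Gamma24 hγ, ?_⟩
  rw [e, act_ginv_act (sp_of_mem hγ.1) (det_den_ne_zero (sp_of_mem hγ.1) hτ)]

end Pool.Agent.Helper34.ThetaMap
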