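import Pool.Agent.Helper34.ThetaMap.Series

/-!
# Theta constants of block diagonal matrices
-/

open Complex Matrix Filter Topology

namespace Pool.Agent.Helper34.ThetaMap

/-- block diagonal matrix -/
def blk {m k : ℕ} (N : Fin m → Fin m → ℂ) (P : Fin k → Fin k → ℂ) :
    Fin (m + k) → Fin (m + k) → ℂ := fun i j =>
  Fin.addCases (motive := fun _ => ℂ)
    (fun i' => Fin.addCases (motive := fun _ => ℂ) (fun j' => N i' j') (fun _ => 0) j)
    (fun i' => Fin.addCases (motive := fun _ => ℂ) (fun _ => 0) (fun j' => P i' j') j) i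

section
variable {m k : ℕ} (N : Fin m → Fin m → ℂ) (P : Fin k → Fin k → ℂ)

@[simp] lemma blk_ll (i j : Fin m) : blk N P (Fin.castAdd k i) (Fin.castAdd k j) = N i j := by
  simp [blk]
@[simp] lemma blk_lr (i : Fin m) (j : Fin k) : blk N P (Fin.castAdd k i) (Fin.natAdd m j) = 0 := by
  simp [blk]
@[simp] lemma blk_rl (i : Fin k) (j : Fin m) : blk N P (Fin.natAdd m i) (Fin.castAdd k j) = 0 := by
  simp [blk]
@[simp] lemma blk_rr (i j : Fin k) : blk N P (Fin.natAdd m i) (Fin.natAdd m j) = P i j := by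
  simp [blk]

lemma trm_blk (σ : Fin (m + k) → Fin 2) (a : Fin m → ℤ) (b : Fin k → ℤ) :
    trm σ (blk N P) (Fin.append a b)
      = trm (fun i => σ (Fin.castAdd k i)) N a * trm (fun i => σ (Fin.natAdd m i)) P b := by
  rw [trm, trm, trm, ← Complex.exp_add]
  congr 1
  rw [← mul_add]
  congr 1
  have e1 : ∀ i, xv σ (Fin.append a b) (Fin.castAdd k i)
      = xv (fun i => σ (Fin.castAdd k i)) a i := by
    intro i; simp [xv]
  have e2 : ∀ i, xv σ (Fin.append a b) (Fin.natAdd m i)
      = xv (fun i => σ (Fin.natAdd m i)) b i := by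
    intro i; simp [xv]
  simp only [Fin.sum_univ_add, blk_ll, blk_lr, blk_rl, blk_rr, e1, e2]
  simp

/-- The theta constants of a block diagonal period matrix are products. -/
lemma Theta_blk {c d : ℝ} (hc : 0 < c) (hd : 0 < d) (hN : Coer c N) (hP : Coer d P)
    (σ : Fin (m + k) → Fin 2) :
    Theta σ (Matrix.of (blk N P)) = Theta (fun i => σ (Fin.castAdd k i)) (Matrix.of N)
      * Theta (fun i => σ (Fin.natAdd m i)) (Matrix.of P) := by
  rw [Theta_eq, Theta_eq, Theta_eq, tsum_mul_tsum_of_summable_norm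
    (summable_norm_trm hc _ hN) (summable_norm_trm hd _ hP)]
  rw [← (Fin.appendEquiv m k).tsum_eq]
  refine tsum_congr fun p => ?_
  rw [← trm_blk]
  rfl

end

end Pool.Agent.Helper34.ThetaMap
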