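import Pool.Agent.Helper34.ThetaMap.Disc

/-!
# Extending local functions to `Γ_g(2,4)`-invariant functions
-/

open Complex Matrix Filter Topology

namespace Pool.Agent.Helper34.ThetaMap

section analytic

variable {E : Type*} [NormedAddCommGroup E] [NormedSpace ℂ E] {g : ℕ}

lemma analyticAt_det {n : ℕ} {N : E → Matrix (Fin n) (Fin n) ℂ} {x₀ : E}
    (hN : ∀ i j, AnalyticAt ℂ (fun x => N x i j) x₀) : AnalyticAt ℂ (fun x => (N x).det) x₀ := by
  simp only [Matrix.det_apply']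
  refine Finset.analyticAt_fun_sum _ fun σ _ => ?_
  exact analyticAt_const.fun_mul (Finset.analyticAt_fun_prod _ fun i _ => hN _ _)

lemma analyticAt_adjugate {n : ℕ} {N : E → Matrix (Fin n) (Fin n) ℂ} {x₀ : E}
    (hN : ∀ i j, AnalyticAt ℂ (fun x => N x i j) x₀) (i j : Fin n) :
    AnalyticAt ℂ (fun x => (N x).adjugate i j) x₀ := by
  simp only [Matrix.adjugate_apply]
  refine analyticAt_det fun k l => ?_
  by_cases hk : k = j
  · subst hk
    simp only [Matrix.updateRow_self]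
    exact analyticAt_const
  · simp only [Matrix.updateRow_ne hk]
    exact hN k l

lemma analyticAt_inv_apply {n : ℕ} {N : E → Matrix (Fin n) (Fin n) ℂ} {x₀ : E}
    (hN : ∀ i j, AnalyticAt ℂ (fun x => N x i j) x₀) (hd : (N x₀).det ≠ 0) (i j : Fin n) :
    AnalyticAt ℂ (fun x => (N x)⁻¹ i j) x₀ := by
  have : (fun x => (N x)⁻¹ i j) = fun x => ((N x).det)⁻¹ * (N x).adjugate i j := by
    funext x
    rw [Matrix.inv_def, Matrix.smul_apply, smul_eq_mul, Ring.inverse_eq_inv']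
  rw [this]
  exact ((analyticAt_det hN).fun_inv hd).fun_mul (analyticAt_adjugate hN i j)

lemma analyticAt_mul_apply {n : ℕ} {N P : E → Matrix (Fin n) (Fin n) ℂ} {x₀ : E}
    (hN : ∀ i j, AnalyticAt ℂ (fun x => N x i j) x₀)
    (hP : ∀ i j, AnalyticAt ℂ (fun x => P x i j) x₀) (i j : Fin n) :
    AnalyticAt ℂ (fun x => (N x * P x) i j) x₀ := by
  simp only [Matrix.mul_apply]
  exact Finset.analyticAt_fun_sum _ fun k _ => (hN i k).fun_mul (hP k j)

end analytic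

variable {g : ℕ}

/-- the entries as a function -/
def ent (τ : SymMat g) : Fin g → Fin g → ℂ := fun i j => τ s(i, j)

lemma analyticAt_mat (τ₀ : SymMat g) (i j : Fin g) :
    AnalyticAt ℂ (fun τ : SymMat g => mat τ i j) τ₀ :=
  (ContinuousLinearMap.proj (R := ℂ) (φ := fun _ : Sym2 (Fin g) => ℂ) s(i, j)).analyticAt τ₀

lemma analyticAt_num (γ : Matrix (Fin g ⊕ Fin g) (Fin g ⊕ Fin g) ℤ) (τ₀ : SymMat g) (i j : Fin g) :
    AnalyticAt ℂ (fun τ : SymMat g => num γ (mat τ) i j) τ₀ := by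
  have h := analyticAt_mul_apply (N := fun _ : SymMat g => cst γ.toBlocks₁₁) (P := mat)
    (x₀ := τ₀) (fun _ _ => analyticAt_const) (analyticAt_mat τ₀) i j
  exact h.fun_add (analyticAt_const (v := cst γ.toBlocks₁₂ i j))

lemma analyticAt_den (γ : Matrix (Fin g ⊕ Fin g) (Fin g ⊕ Fin g) ℤ) (τ₀ : SymMat g) (i j : Fin g) :
    AnalyticAt ℂ (fun τ : SymMat g => den γ (mat τ) i j) τ₀ := by
  have h := analyticAt_mul_apply (N := fun _ : SymMat g => cst γ.toBlocks₂₁) (P := mat)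
    (x₀ := τ₀) (fun _ _ => analyticAt_const) (analyticAt_mat τ₀) i j
  exact h.fun_add (analyticAt_const (v := cst γ.toBlocks₂₂ i j))

lemma analyticAt_act {γ : Matrix (Fin g ⊕ Fin g) (Fin g ⊕ Fin g) ℤ} {τ₀ : SymMat g}
    (hd : (den γ (mat τ₀)).det ≠ 0) (i j : Fin g) :
    AnalyticAt ℂ (fun τ : SymMat g => act γ (mat τ) i j) τ₀ := by
  simp only [act]
  exact analyticAt_mul_apply (analyticAt_num γ τ₀)
    (fun i j => analyticAt_inv_apply (analyticAt_den γ τ₀) hd i j) i j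

/-- the action as a map into the normed space of all functions `Fin g → Fin g → ℂ` -/
noncomputable def actFun (γ : Matrix (Fin g ⊕ Fin g) (Fin g ⊕ Fin g) ℤ) (τ : SymMat g) :
    Fin g → Fin g → ℂ := fun i j => act γ (mat τ) i j

lemma analyticAt_actFun {γ : Matrix (Fin g ⊕ Fin g) (Fin g ⊕ Fin g) ℤ} {τ₀ : SymMat g}
    (hd : (den γ (mat τ₀)).det ≠ 0) : AnalyticAt ℂ (actFun γ) τ₀ := by
  refine AnalyticAt.pi fun i => AnalyticAt.pi fun j => ?_
  exact analyticAt_act hd i j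

lemma eventually_det_ne {γ : Matrix (Fin g ⊕ Fin g) (Fin g ⊕ Fin g) ℤ} {τ₀ : SymMat g}
    (hd : (den γ (mat τ₀)).det ≠ 0) : ∀ᶠ τ in 𝓝 τ₀, (den γ (mat τ)).det ≠ 0 :=
  (analyticAt_det (analyticAt_den γ τ₀)).continuousAt.eventually_ne hd


variable {h : ℕ}

lemma isOpen_near : IsOpen {M : Fin (4 + h) → Fin (4 + h) → ℂ | Near M} := by
  have hc : ∀ i j, Continuous fun M : Fin (4 + h) → Fin (4 + h) → ℂ => M i j :=
    fun i j => (continuous_apply j).comp (continuous_apply i)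
  have e : {M : Fin (4 + h) → Fin (4 + h) → ℂ | Near M}
      = (⋂ i, {M | (M i i).im < 101 / 100})
        ∩ (⋂ i, {M | (74 : ℝ) / 100 < (M i i).im - ∑ j ∈ Finset.univ.erase i, |(M i j).im|})
        ∩ (⋂ i, ⋂ j, {M | |(M i j).re| < 1})
        ∩ {M | 0 < (M (Fin.castAdd h 0) (Fin.castAdd h 1)).im}
        ∩ {M | 0 < (M (Fin.castAdd h 2) (Fin.castAdd h 3)).im} := by
    ext M
    simp only [Set.mem_ofPred_eq, Set.mem_inter_iff, Set.mem_iInter]
    exact ⟨fun h => ⟨⟨⟨⟨h.diag, h.dom⟩, h.re⟩, h.b01⟩, h.b23⟩,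
      fun h => ⟨h.1.1.1.1, h.1.1.1.2, h.1.1.2, h.1.2, h.2⟩⟩
  rw [e]
  refine (((IsOpen.inter ?_ ?_).inter ?_).inter ?_).inter ?_
  · exact isOpen_iInter_of_finite fun i =>
      isOpen_lt (Complex.continuous_im.comp (hc i i)) continuous_const
  · exact isOpen_iInter_of_finite fun i => isOpen_lt continuous_const
      ((Complex.continuous_im.comp (hc i i)).sub
        (continuous_finsetSum _ fun j _ => (Complex.continuous_im.comp (hc i j)).abs))
  · exact isOpen_iInter_of_finite fun i => isOpen_iInter_of_finite fun j =>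
      isOpen_lt (Complex.continuous_re.comp (hc i j)).abs continuous_const
  · exact isOpen_lt continuous_const (Complex.continuous_im.comp (hc _ _))
  · exact isOpen_lt continuous_const (Complex.continuous_im.comp (hc _ _))

/-- The set of points of `ℍ_g` which are `Γ_g(2,4)`-equivalent to a point near `τ₀`. -/
def orbitSet (h : ℕ) : Set (SymMat (4 + h)) :=
  {τ | τ ∈ siegel (4 + h) ∧ ∃ γ ∈ Gamma24 (4 + h), Near (actFun γ τ)}

/-- polynomial-like functions invariant under the relevant sign changes -/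
structure SignInv (φ : (Fin (4 + h) → Fin (4 + h) → ℂ) → ℂ) : Prop where
  analytic : ∀ M, AnalyticAt ℂ φ M
  inv : ∀ (M : Fin (4 + h) → Fin (4 + h) → ℂ) (s : Fin (4 + h) → ℝ), (∀ i, s i = 1 ∨ s i = -1) →
    s (Fin.castAdd h 0) = s (Fin.castAdd h 1) → s (Fin.castAdd h 2) = s (Fin.castAdd h 3) →
    φ (fun i j => s i * s j * M i j) = φ M

open Classical in
/-- The `Γ_g(2,4)`-invariant extension of `φ`. -/
noncomputable def extend (φ : (Fin (4 + h) → Fin (4 + h) → ℂ) → ℂ) (τ : SymMat (4 + h)) : ℂ :=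
  if hex : ∃ γ ∈ Gamma24 (4 + h), Near (actFun γ τ) then φ (actFun hex.choose τ) else 0

lemma extend_eq {φ : (Fin (4 + h) → Fin (4 + h) → ℂ) → ℂ} (hφ : SignInv φ)
    {τ : SymMat (4 + h)} (hτ : τ ∈ siegel (4 + h))
    {γ : Matrix (Fin (4 + h) ⊕ Fin (4 + h)) (Fin (4 + h) ⊕ Fin (4 + h)) ℤ}
    (hγ : γ ∈ Gamma24 (4 + h)) (hN : Near (actFun γ τ)) : extend φ τ = φ (actFun γ τ) := by
  have hex : ∃ γ ∈ Gamma24 (4 + h), Near (actFun γ τ) := ⟨γ, hγ, hN⟩
  rw [extend, dif_pos hex]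
  obtain ⟨hδ, hδN⟩ := hex.choose_spec
  set δ := hex.choose with hδdef
  have spγ : Sp γ := sp_of_mem hγ.1
  have spδ : Sp δ := sp_of_mem hδ.1
  have dγ := det_den_ne_zero spγ hτ
  have dδ := det_den_ne_zero spδ hτ
  set M := mat τ with hM
  -- `M₁ = γ M`, `M₂ = δ M = (δ γ⁻¹) M₁`
  have hMs : Mᵀ = M := mat_symm τ
  have hM1s : (act γ M)ᵀ = act γ M := act_symm spγ hMs dγ
  set τ₁ : SymMat (4 + h) := ofMat (fun i j => act γ M i j) (act_apply_symm spγ τ dγ) with hτ₁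
  have hmat1 : mat τ₁ = act γ M := rfl
  have hτ₁s : τ₁ ∈ siegel (4 + h) := by
    change ((mat τ₁).map Complex.im).PosDef
    rw [hmat1]
    exact posDef_act spγ hMs dγ hτ
  have hg : δ * ginv γ ∈ Gamma24 (4 + h) := Gamma24_mul hδ (ginv_mem_Gamma24 hγ)
  have dg := det_den_ne_zero (sp_of_mem hg.1) hτ₁s
  have dginv := det_den_ne_zero (sp_of_mem (ginv_mem_Gamma24 hγ).1) hτ₁s
  have e : act (δ * ginv γ) (act γ M) = act δ M := by
    rw [hmat1] at dginv
    rw [act_mul _ _ dginv, act_ginv_act spγ dγ]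
  have hN2 : Near (act (δ * ginv γ) (act γ M)) := by
    rw [e]
    exact hδN
  obtain ⟨s, hs, h01, h23, hsM⟩ := disc (Gamma24_subset hg) hM1s hN dg hN2
  rw [e] at hsM
  have : actFun δ τ = fun i j => (s i : ℂ) * s j * actFun γ τ i j := by
    funext i j
    exact hsM i j
  rw [this]
  exact hφ.inv _ s hs h01 h23

lemma orbitSet_mem_nhds {τ₁ : SymMat (4 + h)} (hτ₁ : τ₁ ∈ siegel (4 + h))
    {γ : Matrix (Fin (4 + h) ⊕ Fin (4 + h)) (Fin (4 + h) ⊕ Fin (4 + h)) ℤ}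
    (hγ : γ ∈ Gamma24 (4 + h)) (hN : Near (actFun γ τ₁)) :
    ∀ᶠ τ in 𝓝 τ₁, τ ∈ siegel (4 + h) ∧ Near (actFun γ τ) := by
  have spγ : Sp γ := sp_of_mem hγ.1
  have dγ := det_den_ne_zero spγ hτ₁
  have h1 := eventually_det_ne dγ
  have h2 : ∀ᶠ τ in 𝓝 τ₁, Near (actFun γ τ) :=
    (analyticAt_actFun dγ).continuousAt.eventually_mem (isOpen_near.mem_nhds hN)
  filter_upwards [h1, h2] with τ hd hNear
  refine ⟨?_, hNear⟩
  have hs : (act γ (mat τ))ᵀ = act γ (mat τ) := act_symm spγ (mat_symm τ) hd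
  exact posDef_of_posDef_act spγ (mat_symm τ) hd (Near.posDef hs hNear)

lemma isOpenA_orbitSet : IsOpenA (4 + h) (orbitSet h) := by
  refine ⟨?_, fun τ hτ => hτ.1, ?_⟩
  · rw [isOpen_iff_mem_nhds]
    rintro τ₁ ⟨hτ₁, γ, hγ, hN⟩
    filter_upwards [orbitSet_mem_nhds hτ₁ hγ hN] with τ hτ
    exact ⟨hτ.1, γ, hγ, hτ.2⟩
  · rintro τ ⟨hτ, γ, hγ, hN⟩ τ' hτ' hsame
    obtain ⟨δ, hδ, e⟩ := hsame.symm hτ
    refine ⟨hτ', γ * δ, Gamma24_mul hγ hδ, ?_⟩
    have : actFun (γ * δ) τ' = actFun γ τ := by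
      funext i j
      change act (γ * δ) (mat τ') i j = act γ (mat τ) i j
      rw [act_mul _ _ (det_den_ne_zero (sp_of_mem hδ.1) hτ'), ← e]
    rw [this]
    exact hN

lemma isHolA_extend {φ : (Fin (4 + h) → Fin (4 + h) → ℂ) → ℂ} (hφ : SignInv φ) :
    IsHolA (4 + h) (orbitSet h) (extend φ) := by
  constructor
  · rintro τ ⟨hτ, γ, hγ, hN⟩ τ' ⟨hτ', -⟩ hsame
    obtain ⟨δ, hδ, e⟩ := hsame.symm hτ
    have e2 : actFun (γ * δ) τ' = actFun γ τ := by
      funext i j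
      change act (γ * δ) (mat τ') i j = act γ (mat τ) i j
      rw [act_mul _ _ (det_den_ne_zero (sp_of_mem hδ.1) hτ'), ← e]
    rw [extend_eq hφ hτ hγ hN, extend_eq hφ hτ' (Gamma24_mul hγ hδ) (by rw [e2]; exact hN), e2]
  · rintro τ₁ ⟨hτ₁, γ, hγ, hN⟩
    have dγ := det_den_ne_zero (sp_of_mem hγ.1) hτ₁
    have h1 : AnalyticAt ℂ (fun τ => φ (actFun γ τ)) τ₁ :=
      (hφ.analytic _).fun_comp (analyticAt_actFun dγ)
    refine h1.congr ?_
    filter_upwards [orbitSet_mem_nhds hτ₁ hγ hN] with τ hτ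
    exact (extend_eq hφ hτ.1 hγ hτ.2).symm

lemma one_mem_Gamma24 {g : ℕ} : (1 : Matrix (Fin g ⊕ Fin g) (Fin g ⊕ Fin g) ℤ) ∈ Gamma24 g := by
  rw [mem_Gamma24_iff]
  obtain ⟨-, h2, h3, -⟩ := toBlocks_one (g := g)
  refine ⟨⟨Submonoid.one_mem _, fun i j => by simp⟩, fun i => ?_, fun i => ?_⟩
  · rw [h2]; simp
  · rw [h3]; simp

lemma actFun_one {g : ℕ} (τ : SymMat g) : actFun 1 τ = ent τ := by
  funext i j
  change act 1 (mat τ) i j = _
  rw [act_one]
  rfl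

lemma extend_near {φ : (Fin (4 + h) → Fin (4 + h) → ℂ) → ℂ} (hφ : SignInv φ)
    {τ : SymMat (4 + h)} (hN : Near (ent τ)) : τ ∈ orbitSet h ∧ extend φ τ = φ (ent τ) := by
  have hs : τ ∈ siegel (4 + h) := Near.posDef (M := mat τ) (mat_symm τ) hN
  have hN' : Near (actFun 1 τ) := by rw [actFun_one]; exact hN
  refine ⟨⟨hs, 1, one_mem_Gamma24, hN'⟩, ?_⟩
  rw [extend_eq hφ hs one_mem_Gamma24 hN', actFun_one]

end Pool.Agent.Helper34.ThetaMap
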