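import Pool.Agent.Helper34.ThetaMap.Lines
import Pool.Agent.Helper34.ThetaMap.Extend

/-!
# The core argument
-/

open Complex Matrix Filter Topology Asymptotics

namespace Pool.Agent.Helper34.ThetaMap

lemma chain {V : Type*} [NormedAddCommGroup V] [NormedSpace ℂ V] {F : V → ℂ} {F' : V →L[ℂ] ℂ}
    {v₀ : V} (hF : HasFDerivAt F F' v₀) {u R : ℂ → V} {r : ℕ} (hr : 1 ≤ r)
    (hR : ContinuousAt R 0) (hu : ∀ t, u t = v₀ + t ^ r • R t) {m : ℂ}
    (hm : ∀ᶠ t in 𝓝 (0 : ℂ), F (u t) - F v₀ = m * t ^ r) : F' (R 0) = m := by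
  have h1 := hasFDerivAt_iff_isLittleO_nhds_zero.1 hF
  have hlim : Tendsto (fun t : ℂ => t ^ r • R t) (𝓝 0) (𝓝 0) := by
    have : Tendsto (fun t : ℂ => t ^ r • R t) (𝓝 0) (𝓝 ((0 : ℂ) ^ r • R 0)) :=
      ((continuous_pow r).continuousAt (x := (0 : ℂ))).tendsto.smul hR.tendsto
    rwa [zero_pow (by omega), zero_smul] at this
  have h2 := h1.comp_tendsto hlim
  have hO : (fun t : ℂ => t ^ r • R t) =O[𝓝 0] fun t : ℂ => t ^ r := by
    have hb : R =O[𝓝 0] (fun _ : ℂ => (1 : ℂ)) := hR.tendsto.isBigO_one ℂ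
    have := (isBigO_refl (fun t : ℂ => t ^ r) (𝓝 0)).smul hb
    simpa using this
  have h3 := h2.trans_isBigO hO
  have h4 : (fun t : ℂ => (m - F' (R t)) * t ^ r) =o[𝓝 0] fun t : ℂ => t ^ r := by
    refine h3.congr' ?_ (EventuallyEq.refl _ _)
    filter_upwards [hm] with t ht
    simp only [Function.comp_apply]
    rw [← hu, ht, map_smul, smul_eq_mul]
    ring
  have h5 : Tendsto (fun t : ℂ => m - F' (R t)) (𝓝[≠] 0) (𝓝 0) := by
    have h6 := (h4.mono (nhdsWithin_le_nhds (s := {(0 : ℂ)}ᶜ))).tendsto_div_nhds_zero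
    refine h6.congr' ?_
    filter_upwards [self_mem_nhdsWithin] with t ht
    have : t ^ r ≠ 0 := pow_ne_zero _ ht
    field_simp
  have h6 : Tendsto (fun t : ℂ => m - F' (R t)) (𝓝[≠] 0) (𝓝 (m - F' (R 0))) := by
    have : ContinuousAt (fun t : ℂ => m - F' (R t)) 0 :=
      continuousAt_const.sub (F'.continuous.continuousAt.comp hR)
    exact this.tendsto.mono_left nhdsWithin_le_nhds
  have := tendsto_nhds_unique h5 h6
  exact (sub_eq_zero.1 this.symm).symm

/-- the 16 directions: 6 in the diagonal blocks, 10 in the off-diagonal block -/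
abbrev K := Fin 6 ⊕ Fin 10

/-- block diagonal symmetric matrices -/
def blockdir (u : Fin 6 → ℂ) : Fin 4 → Fin 4 → ℂ :=
  ![![u 0, u 1, 0, 0], ![u 1, u 2, 0, 0], ![0, 0, u 3, u 4], ![0, 0, u 4, u 5]]

/-- off-diagonal-block symmetric matrices -/
def off (v : Fin 4 → ℂ) : Fin 4 → Fin 4 → ℂ :=
  ![![0, 0, v 0, v 1], ![0, 0, v 2, v 3], ![v 0, v 2, 0, 0], ![v 1, v 3, 0, 0]]

/-- positions of the block coordinates -/
def pA : Fin 6 → Fin 4 × Fin 4 := ![(0, 0), (0, 1), (1, 1), (2, 2), (2, 3), (3, 3)]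

/-- positions of the off-block coordinates -/
def pO : Fin 4 → Fin 4 × Fin 4 := ![(0, 2), (0, 3), (1, 2), (1, 3)]

/-- pairs of off-block coordinates -/
def pB : Fin 10 → Fin 4 × Fin 4 :=
  ![(0, 0), (1, 1), (2, 2), (3, 3), (0, 1), (0, 2), (0, 3), (1, 2), (1, 3), (2, 3)]

/-- the vector `e_a + e_b` (or `e_a` if `a = b`) -/
def vB (j : Fin 10) : Fin 4 → ℂ := fun c => if c = (pB j).1 ∨ c = (pB j).2 then 1 else 0

/-- the directions -/
def wdir : K → Fin 4 → Fin 4 → ℂ
  | Sum.inl i => blockdir (Pi.single i 1)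
  | Sum.inr j => off (vB j)

/-- the order of the directions -/
def ord : K → ℕ
  | Sum.inl _ => 1
  | Sum.inr _ => 2

lemma blockdir_pA (u : Fin 6 → ℂ) (i : Fin 6) : blockdir u (pA i).1 (pA i).2 = u i := by
  fin_cases i <;> rfl

lemma blockdir_pO (u : Fin 6 → ℂ) (a : Fin 4) : blockdir u (pO a).1 (pO a).2 = 0 := by
  fin_cases a <;> rfl

lemma off_pA (v : Fin 4 → ℂ) (i : Fin 6) : off v (pA i).1 (pA i).2 = 0 := by
  fin_cases i <;> rfl

lemma off_pO (v : Fin 4 → ℂ) (a : Fin 4) : off v (pO a).1 (pO a).2 = v a := by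
  fin_cases a <;> rfl

lemma B4_pO (a : Fin 4) : B4 (pO a).1 (pO a).2 = 0 := by
  fin_cases a <;> simp [B4, T4, pO]

lemma blockdir_symm (u : Fin 6 → ℂ) (i j : Fin 4) : blockdir u i j = blockdir u j i := by
  fin_cases i <;> fin_cases j <;> rfl

lemma off_symm (v : Fin 4 → ℂ) (i j : Fin 4) : off v i j = off v j i := by
  fin_cases i <;> fin_cases j <;> rfl

lemma B4_symm (i j : Fin 4) : B4 i j = B4 j i := by
  fin_cases i <;> fin_cases j <;> simp [B4, T4]

lemma blockdir_norm {u : Fin 6 → ℂ} (hu : ∀ i, ‖u i‖ ≤ 1) (i j : Fin 4) :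
    ‖blockdir u i j‖ ≤ 1 := by
  fin_cases i <;> fin_cases j <;> simp [blockdir, hu]

lemma off_norm {v : Fin 4 → ℂ} (hv : ∀ i, ‖v i‖ ≤ 1) (i j : Fin 4) : ‖off v i j‖ ≤ 1 := by
  fin_cases i <;> fin_cases j <;> simp [off, hv]

lemma off_odd (v : Fin 4 → ℂ) (i j : Fin 4) : (sg4 i : ℂ) * sg4 j * off v i j = -off v i j := by
  fin_cases i <;> fin_cases j <;> simp [off, sg4]

lemma wdir_norm (k : K) (i j : Fin 4) : ‖wdir k i j‖ ≤ 1 := by
  rcases k with k | k
  · refine blockdir_norm (fun i => ?_) i j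
    by_cases h : i = k
    · subst h; simp
    · simp [Pi.single_eq_of_ne h]
  · refine off_norm (fun i => ?_) i j
    unfold vB
    split_ifs <;> simp

lemma wdir_symm (k : K) (i j : Fin 4) : wdir k i j = wdir k j i := by
  rcases k with k | k
  · exact blockdir_symm _ i j
  · exact off_symm _ i j

lemma exists_R (k : K) : ∃ R : ℂ → ((Fin 4 → Fin 2) → ℂ), ContinuousAt R 0 ∧
      ∀ t, uvec (wdir k) t = uvec (wdir k) 0 + t ^ ord k • R t := by
  rcases k with k | k
  · exact exists_first (wdir_norm (Sum.inl k))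
  · exact exists_second (wdir_norm (Sum.inr k)) (off_odd _)

lemma uvec_zero (w : Fin 4 → Fin 4 → ℂ) : uvec w 0 = uvec 0 0 := by
  funext σ
  have : line w 0 = line 0 0 := by
    funext i j
    simp [line]
  change Theta σ (Matrix.of (line w 0)) = Theta σ (Matrix.of (line 0 0))
  rw [this]

/-- The linear algebra at the heart of the argument. -/
lemma no_relation (c : K → ℂ) (hA : ∀ i : Fin 6, ∑ k : Fin 6, c (Sum.inl k) * (Pi.single k (1 : ℂ) : Fin 6 → ℂ) i = 0)
    (hB : ∀ j : Fin 10, ∑ k : Fin 10, c (Sum.inr k) * (vB k (pB j).1 * vB k (pB j).2) = 0) :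
    c = 0 := by
  have h1 : ∀ i, c (Sum.inl i) = 0 := by
    intro i
    have := hA i
    rw [Finset.sum_eq_single i (fun k _ hk => by rw [Pi.single_eq_of_ne (Ne.symm hk), mul_zero])
      (fun hi => absurd (Finset.mem_univ i) hi), Pi.single_eq_same, mul_one] at this
    exact this
  have h2 : ∀ j, c (Sum.inr j) = 0 := by
    have e4 := hB 4
    have e5 := hB 5
    have e6 := hB 6
    have e7 := hB 7
    have e8 := hB 8
    have e9 := hB 9
    have e0 := hB 0
    have e1 := hB 1
    have e2 := hB 2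
    have e3 := hB 3
    simp [Fin.sum_univ_succ, vB, pB, Fin.succ] at e0 e1 e2 e3 e4 e5 e6 e7 e8 e9
    rw [e4, e5, e6] at e0
    rw [e4, e7, e8] at e1
    rw [e5, e7, e9] at e2
    rw [e6, e8, e9] at e3
    simp only [add_zero] at e0 e1 e2 e3
    intro j
    fin_cases j
    · exact e0
    · exact e1
    · exact e2
    · exact e3
    · exact e4
    · exact e5
    · exact e6
    · exact e7
    · exact e8
    · exact e9
  funext k
  rcases k with k | k
  · exact h1 k
  · exact h2 k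


variable {h : ℕ}

/-- `i` times the identity -/
noncomputable def iId (h : ℕ) : Fin h → Fin h → ℂ := fun i j => if i = j then I else 0

lemma iId_symm (i j : Fin h) : iId h i j = iId h j i := by
  simp [iId, eq_comm]

lemma coer_iId : Coer 1 (iId h) := by
  intro x
  rw [one_mul]
  refine Finset.sum_le_sum fun i _ => ?_
  rw [Finset.sum_eq_single i (fun j _ hj => by simp [iId, Ne.symm hj])
    (fun hi => absurd (Finset.mem_univ i) hi)]
  simp [iId]
  nlinarith

lemma blk_symm {N : Fin 4 → Fin 4 → ℂ} (hN : ∀ i j, N i j = N j i) (i j : Fin (4 + h)) :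
    blk N (iId h) i j = blk N (iId h) j i := by
  refine Fin.addCases (fun i' => ?_) (fun i' => ?_) i <;>
    refine Fin.addCases (fun j' => ?_) (fun j' => ?_) j
  · simp [hN i' j']
  · simp
  · simp
  · simp [iId_symm i' j']

lemma line_symm {w : Fin 4 → Fin 4 → ℂ} (hw : ∀ i j, w i j = w j i) (t : ℂ) (i j : Fin 4) :
    line w t i j = line w t j i := by
  rw [line, line, hw i j, B4_symm i j]

/-- the point of `SymMat (4 + h)` on the line with direction `w` -/
noncomputable def pt (h : ℕ) (k : K) (t : ℂ) : SymMat (4 + h) :=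
  ofMat (blk (line (wdir k) t) (iId h)) fun i j => blk_symm (line_symm (wdir_symm k) t) i j

/-- The base point `τ₀`. -/
noncomputable def tau0 (h : ℕ) : SymMat (4 + h) :=
  ofMat (blk B4 (iId h)) fun i j => blk_symm B4_symm i j

lemma ent_pt (k : K) (t : ℂ) : ent (pt h k t) = blk (line (wdir k) t) (iId h) := rfl

lemma ent_tau0 : ent (tau0 h) = blk B4 (iId h) := rfl

lemma pt_zero (k : K) : pt h k 0 = tau0 h := by
  have e : line (wdir k) 0 = B4 := by
    funext i j
    simp [line]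
  unfold pt tau0
  congr 1
  rw [e]

/-- the linear map from genus 4 to genus `4 + h` -/
noncomputable def Lmap (h : ℕ) : ((Fin 4 → Fin 2) → ℂ) →L[ℂ] ((Fin (4 + h) → Fin 2) → ℂ) :=
  ContinuousLinearMap.pi fun σ =>
    (Theta (fun i => σ (Fin.natAdd 4 i)) (Matrix.of (iId h))) •
      ContinuousLinearMap.proj (fun i => σ (Fin.castAdd h i))

lemma thetaVec_pt (k : K) {t : ℂ} (ht : ‖t‖ ≤ 1 / 16) :
    thetaVec (pt h k t) = Lmap h (uvec (wdir k) t) := by
  funext σ
  change Theta σ (Matrix.of (blk (line (wdir k) t) (iId h))) = _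
  rw [Theta_blk (N := line (wdir k) t) (P := iId h) (c := 1 / 2) (d := 1) (by norm_num)
    (by norm_num) (coer_line (wdir_norm k) ht) coer_iId]
  simp [Lmap, uvec, mul_comm]

lemma near_tau0 : Near (ent (tau0 h)) := by
  rw [ent_tau0]
  have hsum : ∀ i : Fin (4 + h), ∑ j ∈ Finset.univ.erase i, |(blk B4 (iId h) i j).im|
      = (∑ j, |(blk B4 (iId h) i j).im|) - |(blk B4 (iId h) i i).im| := by
    intro i
    rw [← Finset.add_sum_erase Finset.univ _ (Finset.mem_univ i)]
    ring
  constructor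
  · intro i
    refine Fin.addCases (fun i' => ?_) (fun i' => ?_) i
    · simp only [blk_ll]
      fin_cases i' <;> simp [B4, T4] <;> norm_num
    · simp [iId]; norm_num
  · intro i
    rw [hsum]
    refine Fin.addCases (fun i' => ?_) (fun i' => ?_) i
    · rw [Fin.sum_univ_add]
      simp only [blk_ll, blk_lr]
      fin_cases i' <;> simp [B4, T4, Fin.sum_univ_four] <;> norm_num
    · rw [Fin.sum_univ_add]
      simp only [blk_rl, blk_rr]
      rw [Finset.sum_eq_single i' (s := (Finset.univ : Finset (Fin h)))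
        (fun j _ hj => by simp [iId, Ne.symm hj]) (fun hi => absurd (Finset.mem_univ i') hi)]
      simp [iId]
      norm_num
  · intro i j
    refine Fin.addCases (fun i' => ?_) (fun i' => ?_) i <;>
      refine Fin.addCases (fun j' => ?_) (fun j' => ?_) j
    · simp only [blk_ll]
      simp [B4]
    · simp
    · simp
    · simp only [blk_rr, iId]
      split_ifs <;> simp
  · simp only [blk_ll]
    simp [B4, T4]
  · simp only [blk_ll]
    simp [B4, T4]

lemma tau0_mem : tau0 h ∈ siegel (4 + h) :=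
  Near.posDef (M := mat (tau0 h)) (mat_symm _) near_tau0

/-- test functions: block coordinates -/
def phiA (i : Fin 6) (M : Fin (4 + h) → Fin (4 + h) → ℂ) : ℂ :=
  M (Fin.castAdd h (pA i).1) (Fin.castAdd h (pA i).2)

/-- test functions: products of off-block coordinates -/
def phiB (j : Fin 10) (M : Fin (4 + h) → Fin (4 + h) → ℂ) : ℂ :=
  M (Fin.castAdd h (pO (pB j).1).1) (Fin.castAdd h (pO (pB j).1).2) *
    M (Fin.castAdd h (pO (pB j).2).1) (Fin.castAdd h (pO (pB j).2).2)

lemma analyticAt_entry (i j : Fin (4 + h)) (M : Fin (4 + h) → Fin (4 + h) → ℂ) :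
    AnalyticAt ℂ (fun M : Fin (4 + h) → Fin (4 + h) → ℂ => M i j) M :=
  ((ContinuousLinearMap.proj (R := ℂ) (φ := fun _ : Fin (4 + h) => ℂ) j).comp
    (ContinuousLinearMap.proj (R := ℂ) (φ := fun _ : Fin (4 + h) => Fin (4 + h) → ℂ) i)).analyticAt M

lemma sq_sign {x : ℝ} (hx : x = 1 ∨ x = -1) : (x : ℂ) * x = 1 := by
  rcases hx with h | h <;> simp [h]

lemma signInv_phiA (i : Fin 6) : SignInv (h := h) (phiA i) := by
  refine ⟨fun M => analyticAt_entry _ _ M, ?_⟩
  intro M s hs h01 h23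
  have key : s (Fin.castAdd h (pA i).1) = s (Fin.castAdd h (pA i).2) := by
    fin_cases i
    · rfl
    · exact h01
    · rfl
    · rfl
    · exact h23
    · rfl
  simp only [phiA]
  rw [key, sq_sign (hs _), one_mul]

lemma signInv_phiB (j : Fin 10) : SignInv (h := h) (phiB j) := by
  refine ⟨fun M => (analyticAt_entry _ _ M).fun_mul (analyticAt_entry _ _ M), ?_⟩
  intro M s hs h01 h23
  have key1 : ∀ a b : Fin 4, s (Fin.castAdd h (pO a).1) = s (Fin.castAdd h (pO b).1) := by
    intro a b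
    fin_cases a <;> fin_cases b <;> simp [pO, h01]
  have key2 : ∀ a b : Fin 4, s (Fin.castAdd h (pO a).2) = s (Fin.castAdd h (pO b).2) := by
    intro a b
    fin_cases a <;> fin_cases b <;> simp [pO, h23]
  simp only [phiB]
  rw [key1 (pB j).1 (pB j).2, key2 (pB j).1 (pB j).2]
  have e1 := sq_sign (hs (Fin.castAdd h (pO (pB j).2).1))
  have e2 := sq_sign (hs (Fin.castAdd h (pO (pB j).2).2))
  linear_combination (M (Fin.castAdd h (pO (pB j).1).1) (Fin.castAdd h (pO (pB j).1).2) *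
    M (Fin.castAdd h (pO (pB j).2).1) (Fin.castAdd h (pO (pB j).2).2)) *
      ((s (Fin.castAdd h (pO (pB j).2).2) : ℂ) * s (Fin.castAdd h (pO (pB j).2).2) * e1 + e2)

end Pool.Agent.Helper34.ThetaMap
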