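import Mathlib

/-!
# The second-order theta constant map `Th : 𝒜_g(2,4) → ℙ^(2^g-1)`

All objects of the question are defined here, for every `g`.

Points of `𝒜_g(2,4) = ℍ_g / Γ_g(2,4)` are classes of points of the Siegel upper half-space, so an
open subset of `𝒜_g(2,4)` is the same thing as an open `Γ_g(2,4)`-stable subset of `ℍ_g`, and a
holomorphic function on it is the same thing as a `Γ_g(2,4)`-invariant holomorphic function on that
subset.  In the same way open subsets of a projective space `ℙ(V)` are open `ℂˣ`-stable subsets of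
`V ∖ {0}` and holomorphic functions on them are the holomorphic functions which are homogeneous of
degree `0`.
-/

open Complex Matrix

namespace Pool.Agent.Helper34.ThetaMap

/-- The complex vector space of symmetric complex `g × g` matrices, given by their entries
`τ_ij = τ_ji`, i.e. by functions on the unordered pairs `{i,j}` of indices. It is the standard
normed space `ℂ^(g(g+1)/2)`, so that one can speak about open sets and about holomorphic (= complex
analytic) functions on it. -/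
abbrev SymMat (g : ℕ) : Type := Sym2 (Fin g) → ℂ

/-- The matrix of a point of `SymMat g`. -/
def mat {g : ℕ} (τ : SymMat g) : Matrix (Fin g) (Fin g) ℂ := Matrix.of fun i j => τ s(i, j)

/-- The Siegel upper half-space `ℍ_g`: symmetric complex matrices with positive definite
imaginary part. -/
def siegel (g : ℕ) : Set (SymMat g) := {τ | ((mat τ).map Complex.im).PosDef}

/-- The theta level 2 subgroup `Γ_g(2,4)` of `Sp(2g,ℤ)`: the integral symplectic matrices
`γ = (a, b; c, d)` with `γ ≡ 1 mod 2` and `diag(a ᵗb) ≡ diag(c ᵗd) ≡ 0 mod 4`. -/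
def Gamma24 (g : ℕ) : Set (Matrix (Fin g ⊕ Fin g) (Fin g ⊕ Fin g) ℤ) :=
  {γ | γ ∈ Matrix.symplecticGroup (Fin g) ℤ ∧
      (∀ i j, (2 : ℤ) ∣ γ i j - (1 : Matrix (Fin g ⊕ Fin g) (Fin g ⊕ Fin g) ℤ) i j) ∧
      (∀ i, (4 : ℤ) ∣ (γ.toBlocks₁₁ * γ.toBlocks₁₂ᵀ) i i) ∧
      (∀ i, (4 : ℤ) ∣ (γ.toBlocks₂₁ * γ.toBlocks₂₂ᵀ) i i)}

/-- The numerator `a τ + b` of the action of `γ = (a, b; c, d)`. -/
def num {g : ℕ} (γ : Matrix (Fin g ⊕ Fin g) (Fin g ⊕ Fin g) ℤ) (τ : Matrix (Fin g) (Fin g) ℂ) :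
    Matrix (Fin g) (Fin g) ℂ :=
  γ.toBlocks₁₁.map (Int.cast : ℤ → ℂ) * τ + γ.toBlocks₁₂.map (Int.cast : ℤ → ℂ)

/-- The denominator `c τ + d` of the action of `γ = (a, b; c, d)`. -/
def den {g : ℕ} (γ : Matrix (Fin g ⊕ Fin g) (Fin g ⊕ Fin g) ℤ) (τ : Matrix (Fin g) (Fin g) ℂ) :
    Matrix (Fin g) (Fin g) ℂ :=
  γ.toBlocks₂₁.map (Int.cast : ℤ → ℂ) * τ + γ.toBlocks₂₂.map (Int.cast : ℤ → ℂ)

/-- The action `γ ⬝ τ = (a τ + b) (c τ + d)⁻¹` of `γ = (a, b; c, d)`. -/
noncomputable def act {g : ℕ} (γ : Matrix (Fin g ⊕ Fin g) (Fin g ⊕ Fin g) ℤ)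
    (τ : Matrix (Fin g) (Fin g) ℂ) : Matrix (Fin g) (Fin g) ℂ :=
  num γ τ * (den γ τ)⁻¹

/-- Two points define the same point of `𝒜_g(2,4) = ℍ_g / Γ_g(2,4)`. -/
def SamePoint {g : ℕ} (τ τ' : SymMat g) : Prop :=
  ∃ γ ∈ Gamma24 g, mat τ' = act γ (mat τ)

/-- The theta function with characteristic
`θ[ε;δ](τ,z) = ∑_{n ∈ ℤ^g} exp(π i (n+ε)ᵗ (τ (n+ε) + 2 (z+δ)))`. -/
noncomputable def theta {g : ℕ} (ε δ : Fin g → ℂ) (τ : Matrix (Fin g) (Fin g) ℂ)
    (z : Fin g → ℂ) : ℂ :=
  ∑' n : Fin g → ℤ, cexp (Real.pi * I *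
    ((fun i => (n i : ℂ) + ε i) ⬝ᵥ (τ *ᵥ (fun i => (n i : ℂ) + ε i) + (2 : ℂ) • (z + δ))))

/-- The second-order theta constant `Θ[ε](τ) = θ[ε;0](2τ,0)`, for the class of `ε = σ/2` in
`½ℤ^g/ℤ^g`, where `σ ∈ {0,1}^g`. -/
noncomputable def Theta {g : ℕ} (σ : Fin g → Fin 2) (τ : Matrix (Fin g) (Fin g) ℂ) : ℂ :=
  theta (fun i => ((σ i : ℕ) : ℂ) / 2) 0 ((2 : ℂ) • τ) 0

/-- The vector of the `2^g` second-order theta constants. The theta map `Th` sends the class
of `τ` to the point of `ℙ^(2^g-1)` with these homogeneous coordinates. -/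
noncomputable def thetaVec {g : ℕ} (τ : SymMat g) : (Fin g → Fin 2) → ℂ :=
  fun σ => Theta σ (mat τ)

/-- `Th(τ) = Th(τ')`: the two vectors of second-order theta constants are proportional. -/
def SameImage {g : ℕ} (τ τ' : SymMat g) : Prop :=
  ∃ c : ℂ, c ≠ 0 ∧ thetaVec τ' = c • thetaVec τ

/-- `U` is (the preimage in `ℍ_g` of) an open subset of `𝒜_g(2,4)`. -/
structure IsOpenA (g : ℕ) (U : Set (SymMat g)) : Prop where
  isOpen : IsOpen U
  subset : U ⊆ siegel g
  stable : ∀ τ ∈ U, ∀ τ' ∈ siegel g, SamePoint τ τ' → τ' ∈ U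

/-- `f` is (the pull-back to `ℍ_g` of) a holomorphic function on the open subset `U` of
`𝒜_g(2,4)`. -/
structure IsHolA (g : ℕ) (U : Set (SymMat g)) (f : SymMat g → ℂ) : Prop where
  invariant : ∀ τ ∈ U, ∀ τ' ∈ U, SamePoint τ τ' → f τ' = f τ
  analytic : AnalyticOnNhd ℂ f U

/-- `W` is (the cone over) an open subset of the projective space `ℙ(V)`. -/
structure IsOpenP {V : Type*} [NormedAddCommGroup V] [NormedSpace ℂ V] (W : Set V) : Prop where
  isOpen : IsOpen W
  zero_notMem : (0 : V) ∉ W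
  cone : ∀ c : ℂ, c ≠ 0 → ∀ v ∈ W, c • v ∈ W

/-- `F` is (the pull-back to the cone of) a holomorphic function on the open subset `W` of
`ℙ(V)`. -/
structure IsHolP {V : Type*} [NormedAddCommGroup V] [NormedSpace ℂ V] (W : Set V) (F : V → ℂ) :
    Prop where
  homogeneous : ∀ c : ℂ, c ≠ 0 → ∀ v ∈ W, F (c • v) = F v
  analytic : AnalyticOnNhd ℂ F W

/-- The restriction of `Th` to the open subset `U` of `𝒜_g(2,4)` is an isomorphism of (reduced)
complex analytic spaces onto its image in `ℙ^(2^g-1)`: it is injective, it is a homeomorphism onto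
its image, and through it every holomorphic function on an open subset of `U` is a holomorphic
function on the image, i.e. locally on the image it is the restriction of a holomorphic
function of the ambient projective space. (Conversely, restrictions of holomorphic functions of the
projective space always pull back to holomorphic functions under the holomorphic map `Th`.) -/
structure IsIsoOntoImageOn (g : ℕ) (U : Set (SymMat g)) : Prop where
  /-- `Th` is injective on `U`. -/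
  injective : ∀ τ ∈ U, ∀ τ' ∈ U, SameImage τ τ' → SamePoint τ τ'
  /-- `Th` is open onto its image: open subsets of `U` are preimages of open subsets. -/
  inducing : ∀ U' ⊆ U, IsOpenA g U' →
    ∃ W : Set ((Fin g → Fin 2) → ℂ), IsOpenP W ∧ ∀ τ ∈ U, (thetaVec τ ∈ W ↔ τ ∈ U')
  /-- Holomorphic functions on open subsets of `U` locally come from the projective space. -/
  holomorphic : ∀ U' ⊆ U, IsOpenA g U' → ∀ f : SymMat g → ℂ, IsHolA g U' f → ∀ τ₁ ∈ U',
    ∃ (W : Set ((Fin g → Fin 2) → ℂ)) (F : ((Fin g → Fin 2) → ℂ) → ℂ),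
      IsOpenP W ∧ thetaVec τ₁ ∈ W ∧ IsHolP W F ∧ ∀ τ ∈ U', thetaVec τ ∈ W → f τ = F (thetaVec τ)

/-- `Th` is an isomorphism onto its image near the point of `𝒜_g(2,4)` given by `τ₀`. -/
def IsIsoOntoImageNear (g : ℕ) (τ₀ : SymMat g) : Prop :=
  ∃ U : Set (SymMat g), IsOpenA g U ∧ τ₀ ∈ U ∧ IsIsoOntoImageOn g U

/-- `Th : 𝒜_g(2,4) → ℙ^(2^g-1)` is an embedding: it is injective and an isomorphism of complex
analytic spaces onto its image. -/
def IsEmbedding (g : ℕ) : Prop := IsIsoOntoImageOn g (siegel g)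

end Pool.Agent.Helper34.ThetaMap
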