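import Pool.Agent.Helper34.ThetaMap.Action

/-!
# Proper discontinuity near the base point
-/

open Complex Matrix

namespace Pool.Agent.Helper34.ThetaMap

variable {h : ℕ}

/-- The open set of (not necessarily symmetric) matrices in which we work. -/
structure Near (M : Fin (4 + h) → Fin (4 + h) → ℂ) : Prop where
  diag : ∀ i, (M i i).im < 101 / 100
  dom : ∀ i, (74 : ℝ) / 100 < (M i i).im - ∑ j ∈ Finset.univ.erase i, |(M i j).im|
  re : ∀ i j, |(M i j).re| < 1
  b01 : 0 < (M (Fin.castAdd h 0) (Fin.castAdd h 1)).im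
  b23 : 0 < (M (Fin.castAdd h 2) (Fin.castAdd h 3)).im

/-- diagonally dominant real symmetric matrices have large quadratic forms -/
lemma dd_bound {g : ℕ} {A : Matrix (Fin g) (Fin g) ℝ} (hs : ∀ i j, A i j = A j i) {m : ℝ}
    (hA : ∀ i, m ≤ A i i - ∑ j ∈ Finset.univ.erase i, |A i j|) (y : Fin g → ℂ) :
    m * ∑ i, ‖y i‖ ^ 2 ≤ (star y ⬝ᵥ (A.map (fun x : ℝ => (x : ℂ)) *ᵥ y)).re := by
  have e1 : (star y ⬝ᵥ (A.map (fun x : ℝ => (x : ℂ)) *ᵥ y)).re
      = ∑ i, ∑ j, A i j * (star (y i) * y j).re := by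
    simp only [dotProduct, Matrix.mulVec, Matrix.map_apply, Pi.star_apply, Complex.re_sum,
      Finset.mul_sum]
    refine Finset.sum_congr rfl fun i _ => Finset.sum_congr rfl fun j _ => ?_
    simp
    ring
  have e2 : ∀ i j, i ≠ j → -(|A i j| * (‖y i‖ ^ 2 + ‖y j‖ ^ 2) / 2) ≤ A i j * (star (y i) * y j).re := by
    intro i j _
    have h1 : |(star (y i) * y j).re| ≤ ‖y i‖ * ‖y j‖ := by
      calc |(star (y i) * y j).re| ≤ ‖star (y i) * y j‖ := Complex.abs_re_le_norm _
        _ = ‖y i‖ * ‖y j‖ := by rw [norm_mul, norm_star]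
    have h2 : ‖y i‖ * ‖y j‖ ≤ (‖y i‖ ^ 2 + ‖y j‖ ^ 2) / 2 := by nlinarith [sq_nonneg (‖y i‖ - ‖y j‖)]
    have h3 : |A i j * (star (y i) * y j).re| ≤ |A i j| * ((‖y i‖ ^ 2 + ‖y j‖ ^ 2) / 2) := by
      rw [abs_mul]
      exact mul_le_mul_of_nonneg_left (h1.trans h2) (abs_nonneg _)
    have h4 := neg_abs_le (A i j * (star (y i) * y j).re)
    linarith
  have e3 : ∀ i, A i i * (star (y i) * y i).re = A i i * ‖y i‖ ^ 2 := by
    intro i
    congr 1
    rw [Complex.star_def, ← Complex.normSq_eq_conj_mul_self, Complex.ofReal_re,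
      Complex.normSq_eq_norm_sq]
  have e4 : ∑ i, ∑ j, A i j * (star (y i) * y j).re
      ≥ ∑ i, (A i i * ‖y i‖ ^ 2 + ∑ j ∈ Finset.univ.erase i,
          -(|A i j| * (‖y i‖ ^ 2 + ‖y j‖ ^ 2) / 2)) := by
    refine Finset.sum_le_sum fun i _ => ?_
    rw [← Finset.add_sum_erase Finset.univ _ (Finset.mem_univ i), e3]
    refine add_le_add le_rfl (Finset.sum_le_sum fun j hj => ?_)
    exact e2 i j (Finset.ne_of_mem_erase hj).symm
  have e5 : ∑ i, ∑ j ∈ Finset.univ.erase i, |A i j| * ‖y j‖ ^ 2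
      = ∑ i, ∑ j ∈ Finset.univ.erase i, |A i j| * ‖y i‖ ^ 2 := by
    have c : ∀ f : Fin g → Fin g → ℝ, ∑ i, ∑ j ∈ Finset.univ.erase i, f i j
        = ∑ i, ∑ j, if j = i then 0 else f i j := by
      intro f
      refine Finset.sum_congr rfl fun i _ => ?_
      rw [← Finset.add_sum_erase Finset.univ _ (Finset.mem_univ i)]
      simp only [if_true, zero_add]
      refine Finset.sum_congr rfl fun j hj => ?_
      rw [if_neg (Finset.ne_of_mem_erase hj)]
    rw [c, c, Finset.sum_comm]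
    refine Finset.sum_congr rfl fun i _ => Finset.sum_congr rfl fun j _ => ?_
    by_cases hij : i = j
    · simp [hij]
    · rw [if_neg hij, if_neg (Ne.symm hij), hs j i]
  rw [e1]
  refine le_trans ?_ e4
  have e6 : ∑ i, (A i i * ‖y i‖ ^ 2 + ∑ j ∈ Finset.univ.erase i,
          -(|A i j| * (‖y i‖ ^ 2 + ‖y j‖ ^ 2) / 2))
      = ∑ i, (A i i - ∑ j ∈ Finset.univ.erase i, |A i j|) * ‖y i‖ ^ 2 := by
    have : ∀ i, ∑ j ∈ Finset.univ.erase i, -(|A i j| * (‖y i‖ ^ 2 + ‖y j‖ ^ 2) / 2)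
        = -(1 / 2) * (∑ j ∈ Finset.univ.erase i, |A i j| * ‖y i‖ ^ 2)
          - (1 / 2) * (∑ j ∈ Finset.univ.erase i, |A i j| * ‖y j‖ ^ 2) := by
      intro i
      rw [Finset.mul_sum, Finset.mul_sum, ← Finset.sum_sub_distrib]
      exact Finset.sum_congr rfl fun j _ => by ring
    simp only [this, sub_mul, Finset.sum_mul, Finset.sum_add_distrib, Finset.sum_sub_distrib]
    rw [← Finset.mul_sum, ← Finset.mul_sum, e5]
    ring
  rw [e6, Finset.mul_sum]
  exact Finset.sum_le_sum fun i _ => mul_le_mul_of_nonneg_right (hA i) (by positivity)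


lemma im_symm {g : ℕ} {M : Matrix (Fin g) (Fin g) ℂ} (hM : Mᵀ = M) (i j : Fin g) :
    (M.map Complex.im) i j = (M.map Complex.im) j i := by
  have : M j i = M i j := congrFun (congrFun hM i) j
  simp [this]

lemma Near.posDef {M : Matrix (Fin (4 + h)) (Fin (4 + h)) ℂ} (hM : Mᵀ = M) (hN : Near M) :
    (M.map Complex.im).PosDef := by
  refine Matrix.PosDef.of_dotProduct_mulVec_pos ?_ ?_
  · ext i j
    have : M j i = M i j := congrFun (congrFun hM i) j
    simp [Matrix.conjTranspose_apply, this]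
  · intro x hx
    have h1 := dd_bound (A := M.map Complex.im) (im_symm hM) (m := 74 / 100)
      (fun i => (hN.dom i).le) (fun i => (x i : ℂ))
    have h2 : (star (fun i => (x i : ℂ)) ⬝ᵥ
        ((M.map Complex.im).map (fun x : ℝ => (x : ℂ)) *ᵥ (fun i => (x i : ℂ)))).re
        = x ⬝ᵥ (M.map Complex.im *ᵥ x) := by
      simp [dotProduct, Matrix.mulVec, Complex.re_sum]
    rw [h2] at h1
    have h3 : 0 < ∑ i, ‖(x i : ℂ)‖ ^ 2 := by
      obtain ⟨i, hi⟩ : ∃ i, x i ≠ 0 := by
        by_contra hcon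
        push Not at hcon
        exact hx (funext hcon)
      refine Finset.sum_pos' (fun i _ => by positivity) ⟨i, Finset.mem_univ i, ?_⟩
      have : ‖(x i : ℂ)‖ ≠ 0 := by simpa using hi
      positivity
    have h4 : 0 < x ⬝ᵥ (M.map Complex.im *ᵥ x) := by
      have : (0:ℝ) < 74 / 100 * ∑ i, ‖(x i : ℂ)‖ ^ 2 := by positivity
      linarith
    simpa using h4

lemma int_even_small {n : ℤ} (h2 : (2 : ℤ) ∣ n) (h : |(n : ℝ)| < 2) : n = 0 := by
  obtain ⟨k, rfl⟩ := h2
  have h1 : |(2 * k : ℤ)| < 2 := by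
    have : ((|(2 * k : ℤ)| : ℤ) : ℝ) < 2 := by
      push_cast
      push_cast at h
      exact h
    exact_mod_cast this
  rw [abs_lt] at h1
  omega

/-- Elements of `Γ_g(2)` which move a point near `τ₀` to a point near `τ₀` act as sign changes. -/
lemma disc {γ : Matrix (Fin (4 + h) ⊕ Fin (4 + h)) (Fin (4 + h) ⊕ Fin (4 + h)) ℤ}
    (hγ : γ ∈ Gamma2 (4 + h)) {M : Matrix (Fin (4 + h)) (Fin (4 + h)) ℂ} (hM : Mᵀ = M)
    (hN : Near M) (hd : (den γ M).det ≠ 0) (hN' : Near (act γ M)) :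
    ∃ s : Fin (4 + h) → ℝ, (∀ i, s i = 1 ∨ s i = -1) ∧
      s (Fin.castAdd h 0) = s (Fin.castAdd h 1) ∧ s (Fin.castAdd h 2) = s (Fin.castAdd h 3) ∧
      ∀ i j, act γ M i j = s i * s j * M i j := by
  have hsp : Sp γ := sp_of_mem hγ.1
  obtain ⟨a2, b2, c2, d2⟩ := Gamma2_blocks hγ
  set Q := den γ M with hQ
  have hM'symm := act_symm hsp hM hd
  have him := im_act hsp hM hd
  -- column estimates
  have hcol : ∀ j, ∑ k, ‖Q k j‖ ^ 2 < 137 / 100 := by
    intro j
    have h1 := dd_bound (A := (act γ M).map Complex.im) (im_symm hM'symm) (m := 74 / 100)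
      (fun i => (hN'.dom i).le) (fun k => Q k j)
    have h2 : (star (fun k => Q k j) ⬝ᵥ
        (((act γ M).map Complex.im).map (fun x : ℝ => (x : ℂ)) *ᵥ (fun k => Q k j)))
        = (Qᴴ * ((act γ M).map Complex.im).map (fun x : ℝ => (x : ℂ)) * Q) j j := by
      simp only [dotProduct, Matrix.mulVec, Matrix.mul_apply, Matrix.conjTranspose_apply,
        Pi.star_apply, Matrix.map_apply, Finset.mul_sum, Finset.sum_mul]
      rw [Finset.sum_comm]
      exact Finset.sum_congr rfl fun i _ => Finset.sum_congr rfl fun k _ => by ring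
    rw [h2, him] at h1
    have h3 := hN.diag j
    simp only [Matrix.map_apply, Complex.ofReal_re] at h1
    nlinarith
  have hent : ∀ k j, ‖Q k j‖ ^ 2 < 137 / 100 := by
    intro k j
    refine lt_of_le_of_lt ?_ (hcol j)
    exact Finset.single_le_sum (f := fun k => ‖Q k j‖ ^ 2) (fun i _ => by positivity)
      (Finset.mem_univ k)
  have hQim : ∀ k j, (Q k j).im = ∑ l, (γ.toBlocks₂₁ k l : ℝ) * (M l j).im := by
    intro k j
    rw [hQ, den, Matrix.add_apply, Matrix.mul_apply, Complex.add_im, Complex.im_sum]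
    simp
  -- c = 0
  have hc : ∀ k l, γ.toBlocks₂₁ k l = 0 := by
    intro k
    by_contra hne
    push Not at hne
    obtain ⟨m, -, hm⟩ := Finset.exists_max_image Finset.univ
      (fun l => |γ.toBlocks₂₁ k l|) ⟨Fin.castAdd h 0, Finset.mem_univ _⟩
    obtain ⟨l, hl⟩ := hne
    have hm2 : 2 ≤ |γ.toBlocks₂₁ k m| := by
      have h1 : 0 < |γ.toBlocks₂₁ k m| := lt_of_lt_of_le (abs_pos.2 hl) (hm l (Finset.mem_univ l))
      have h2 : (2 : ℤ) ∣ |γ.toBlocks₂₁ k m| := (dvd_abs _ _).2 (c2 k m)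
      exact Int.le_of_dvd h1 h2
    have hlow : (2 : ℝ) * (74 / 100) ≤ |(Q k m).im| := by
      rw [hQim]
      have e1 : ∑ l, (γ.toBlocks₂₁ k l : ℝ) * (M l m).im
          = (γ.toBlocks₂₁ k m : ℝ) * (M m m).im
            + ∑ l ∈ Finset.univ.erase m, (γ.toBlocks₂₁ k l : ℝ) * (M l m).im :=
        (Finset.add_sum_erase Finset.univ _ (Finset.mem_univ m)).symm
      have e2 : |∑ l ∈ Finset.univ.erase m, (γ.toBlocks₂₁ k l : ℝ) * (M l m).im|
          ≤ |(γ.toBlocks₂₁ k m : ℝ)| * ∑ l ∈ Finset.univ.erase m, |(M m l).im| := by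
        refine (Finset.abs_sum_le_sum_abs _ _).trans ?_
        rw [Finset.mul_sum]
        refine Finset.sum_le_sum fun l _ => ?_
        rw [abs_mul]
        have hsym : M l m = M m l := congrFun (congrFun hM m) l
        rw [hsym]
        refine mul_le_mul_of_nonneg_right ?_ (abs_nonneg _)
        have := hm l (Finset.mem_univ l)
        exact_mod_cast this
      have e3 : (2:ℝ) ≤ |(γ.toBlocks₂₁ k m : ℝ)| := by exact_mod_cast hm2
      have e4 := hN.dom m
      have e5 : 0 ≤ ∑ l ∈ Finset.univ.erase m, |(M m l).im| :=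
        Finset.sum_nonneg fun _ _ => abs_nonneg _
      have e6 : |(γ.toBlocks₂₁ k m : ℝ) * (M m m).im| = |(γ.toBlocks₂₁ k m : ℝ)| * (M m m).im := by
        rw [abs_mul, abs_of_pos (a := (M m m).im) (by linarith)]
      rw [e1]
      have e7 := abs_sub_abs_le_abs_add ((γ.toBlocks₂₁ k m : ℝ) * (M m m).im)
        (∑ l ∈ Finset.univ.erase m, (γ.toBlocks₂₁ k l : ℝ) * (M l m).im)
      rw [e6] at e7
      nlinarith
    have hup : |(Q k m).im| ≤ ‖Q k m‖ := Complex.abs_im_le_norm _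
    have := hent k m
    nlinarith [abs_nonneg (Q k m).im]
  -- Q = d
  have hQd : ∀ k j, Q k j = (γ.toBlocks₂₂ k j : ℂ) := by
    intro k j
    rw [hQ, den, Matrix.add_apply, Matrix.mul_apply]
    simp [hc]
  have hdoff : ∀ k j, k ≠ j → γ.toBlocks₂₂ k j = 0 := by
    intro k j hkj
    have h1 := d2 k j
    rw [Matrix.one_apply_ne hkj, sub_zero] at h1
    refine int_even_small h1 ?_
    have h2 := hent k j
    rw [hQd] at h2
    have h3 : ‖((γ.toBlocks₂₂ k j : ℤ) : ℂ)‖ = |((γ.toBlocks₂₂ k j : ℤ) : ℝ)| := by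
      rw [← Complex.ofReal_intCast, Complex.norm_real, Real.norm_eq_abs]
    rw [h3] at h2
    nlinarith [abs_nonneg ((γ.toBlocks₂₂ k j : ℤ) : ℝ)]
  have hddiag : ∀ j, γ.toBlocks₂₂ j j = 1 ∨ γ.toBlocks₂₂ j j = -1 := by
    intro j
    have h1 := d2 j j
    rw [Matrix.one_apply_eq] at h1
    have h2 := hent j j
    rw [hQd] at h2
    have h3 : ‖((γ.toBlocks₂₂ j j : ℤ) : ℂ)‖ = |((γ.toBlocks₂₂ j j : ℤ) : ℝ)| := by
      rw [← Complex.ofReal_intCast, Complex.norm_real, Real.norm_eq_abs]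
    rw [h3] at h2
    have h4 : |((γ.toBlocks₂₂ j j : ℤ) : ℝ)| < 2 := by
      nlinarith [abs_nonneg ((γ.toBlocks₂₂ j j : ℤ) : ℝ)]
    have h5 : |γ.toBlocks₂₂ j j| < 2 := by exact_mod_cast h4
    rw [abs_lt] at h5
    omega
  -- a = d
  have had : ∀ i j, γ.toBlocks₁₁ i j = if i = j then γ.toBlocks₂₂ j j else 0 := by
    intro i j
    have h1 : (γ.toBlocks₁₁ᵀ * γ.toBlocks₂₂) j i = (1 : Matrix _ _ ℤ) j i := by
      have h0 : γ.toBlocks₂₁ = 0 := by ext k l; exact hc k l
      have := hsp.ad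
      rw [h0, Matrix.transpose_zero, Matrix.zero_mul, sub_zero] at this
      rw [this]
    rw [Matrix.mul_apply, Finset.sum_eq_single i (fun k _ hk => by rw [hdoff k i hk, mul_zero])
      (fun hi => absurd (Finset.mem_univ i) hi), Matrix.transpose_apply] at h1
    by_cases hij : i = j
    · subst hij
      rw [Matrix.one_apply_eq] at h1
      rw [if_pos rfl]
      rcases hddiag i with h2 | h2 <;> rw [h2] at h1 ⊢ <;> linarith
    · rw [Matrix.one_apply_ne (Ne.symm hij)] at h1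
      rw [if_neg hij]
      rcases hddiag i with h2 | h2 <;> rw [h2] at h1 <;> linarith
  -- the action
  have hact : ∀ i j, act γ M i j * (γ.toBlocks₂₂ j j : ℂ)
      = (γ.toBlocks₂₂ i i : ℂ) * M i j + (γ.toBlocks₁₂ i j : ℂ) := by
    intro i j
    have h1 := congrFun (congrFun (act_mul_den hd) i) j
    rw [← hQ, Matrix.mul_apply, Finset.sum_eq_single j
      (fun k _ hk => by rw [hQd k j, hdoff k j hk]; simp)
      (fun hj => absurd (Finset.mem_univ j) hj), hQd j j] at h1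
    rw [h1, num, Matrix.add_apply, Matrix.mul_apply, Finset.sum_eq_single i
      (fun k _ hk => by
        rw [Matrix.map_apply, had i k, if_neg (Ne.symm hk)]; simp)
      (fun hi => absurd (Finset.mem_univ i) hi)]
    simp [had]
  have hb : ∀ i j, γ.toBlocks₁₂ i j = 0 := by
    intro i j
    refine int_even_small (b2 i j) ?_
    have h1 := congrArg Complex.re (hact i j)
    have h2 := abs_lt.1 (hN.re i j)
    have h3 := abs_lt.1 (hN'.re i j)
    rw [abs_lt]
    rcases hddiag i with hi | hi <;> rcases hddiag j with hj | hj <;>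
      · rw [hi, hj] at h1
        simp at h1
        constructor <;> linarith
  refine ⟨fun i => (γ.toBlocks₂₂ i i : ℝ), ?_, ?_, ?_, ?_⟩ <;> beta_reduce
  · intro i
    rcases hddiag i with hi | hi
    · left; rw [hi]; simp
    · right; rw [hi]; simp
  · have h1 := congrArg Complex.im (hact (Fin.castAdd h 0) (Fin.castAdd h 1))
    have h2 := hN.b01
    have h3 := hN'.b01
    rw [hb] at h1
    rcases hddiag (Fin.castAdd h 0) with hi | hi <;> rcases hddiag (Fin.castAdd h 1) with hj | hj <;>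
      rw [hi, hj] at h1 ⊢ <;> simp at h1 ⊢ <;> linarith
  · have h1 := congrArg Complex.im (hact (Fin.castAdd h 2) (Fin.castAdd h 3))
    have h2 := hN.b23
    have h3 := hN'.b23
    rw [hb] at h1
    rcases hddiag (Fin.castAdd h 2) with hi | hi <;> rcases hddiag (Fin.castAdd h 3) with hj | hj <;>
      rw [hi, hj] at h1 ⊢ <;> simp at h1 ⊢ <;> linarith
  · intro i j
    have h1 := hact i j
    rw [hb] at h1
    rcases hddiag i with hi | hi <;> rcases hddiag j with hj | hj <;>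
      · rw [hi, hj] at h1 ⊢
        push_cast at h1 ⊢
        first
          | linear_combination h1
          | linear_combination -h1

end Pool.Agent.Helper34.ThetaMap
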