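import Pool.Agent.Helper34.ThetaMap.Core

/-!
# `Th` is not an embedding for `g ≥ 4`
-/

open Complex Matrix Filter Topology Asymptotics

namespace Pool.Agent.Helper34.ThetaMap

variable {h : ℕ}

lemma continuous_pt (k : K) : Continuous fun t : ℂ => pt h k t := by
  refine continuous_pi fun e => ?_
  induction e using Sym2.ind with
  | _ i j => ?_
  change Continuous fun t : ℂ => blk (line (wdir k) t) (iId h) i j
  refine Fin.addCases (fun i' => ?_) (fun i' => ?_) i <;>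
    refine Fin.addCases (fun j' => ?_) (fun j' => ?_) j
  · simp only [blk_ll, line]
    fun_prop
  · simp only [blk_lr]
    exact continuous_const
  · simp only [blk_rl]
    exact continuous_const
  · simp only [blk_rr]
    exact continuous_const

lemma continuous_ent {g : ℕ} : Continuous (ent (g := g)) :=
  continuous_pi fun i => continuous_pi fun j => continuous_apply s(i, j)

lemma continuousAt_uvec (k : K) : ContinuousAt (uvec (wdir k)) 0 :=
  ((differentiableOn_uvec (wdir_norm k)).differentiableAt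
    (Metric.ball_mem_nhds _ (by norm_num))).continuousAt

/-- What the pull-back property gives for one test function: a linear functional killing the base
vector and computing the Taylor coefficients of the test function. -/
lemma exists_functional {φ : (Fin (4 + h) → Fin (4 + h) → ℂ) → ℂ} (hφ : SignInv φ)
    {W : Set ((Fin (4 + h) → Fin 2) → ℂ)} {F : ((Fin (4 + h) → Fin 2) → ℂ) → ℂ}
    (hW : IsOpenP W) (hτ : thetaVec (tau0 h) ∈ W) (hF : IsHolP W F)
    {U : Set (SymMat (4 + h))} (hU : U ∈ 𝓝 (tau0 h))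
    (hUF : ∀ τ ∈ U, thetaVec τ ∈ W → extend φ τ = F (thetaVec τ)) :
    ∃ G' : ((Fin 4 → Fin 2) → ℂ) →L[ℂ] ℂ, G' (uvec 0 0) = 0 ∧
      ∀ (k : K) (R : ℂ → ((Fin 4 → Fin 2) → ℂ)) (m : ℂ), ContinuousAt R 0 →
        (∀ t, uvec (wdir k) t = uvec (wdir k) 0 + t ^ ord k • R t) →
        (∀ t, φ (ent (pt h k t)) - φ (ent (tau0 h)) = m * t ^ ord k) → G' (R 0) = m := by
  have hτL : thetaVec (tau0 h) = Lmap h (uvec 0 0) := by
    have := thetaVec_pt (h := h) (Sum.inl 0) (t := 0) (by simp)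
    rwa [pt_zero, uvec_zero] at this
  set G : ((Fin 4 → Fin 2) → ℂ) → ℂ := fun v => F (Lmap h v) with hG
  have hFa : AnalyticAt ℂ F (Lmap h (uvec 0 0)) := hF.analytic _ (hτL ▸ hτ)
  have hGd : HasFDerivAt G ((fderiv ℂ F (Lmap h (uvec 0 0))).comp (Lmap h)) (uvec 0 0) :=
    hFa.differentiableAt.hasFDerivAt.comp (uvec 0 0) (Lmap h).hasFDerivAt
  refine ⟨(fderiv ℂ F (Lmap h (uvec 0 0))).comp (Lmap h), ?_, ?_⟩
  · -- Euler: the derivative of a homogeneous function of degree 0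
    have h1 : HasDerivAt (fun c : ℂ => G (c • uvec 0 0))
        (((fderiv ℂ F (Lmap h (uvec 0 0))).comp (Lmap h)) ((1 : ℂ) • uvec 0 0)) 1 := by
      have h2 : HasDerivAt (fun c : ℂ => c • uvec 0 0) ((1 : ℂ) • uvec 0 0) 1 :=
        (hasDerivAt_id (1 : ℂ)).smul_const _
      have h3 : HasFDerivAt G ((fderiv ℂ F (Lmap h (uvec 0 0))).comp (Lmap h))
          ((1 : ℂ) • uvec 0 0) := by rw [one_smul]; exact hGd
      exact HasFDerivAt.comp_hasDerivAt (l := G)
        (l' := (fderiv ℂ F (Lmap h (uvec 0 0))).comp (Lmap h))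
        (f := fun c : ℂ => c • uvec 0 0) (1 : ℂ) h3 h2
    have h4 : HasDerivAt (fun c : ℂ => G (c • uvec 0 0)) 0 1 := by
      refine (hasDerivAt_const (1 : ℂ) (G (uvec 0 0))).congr_of_eventuallyEq ?_
      filter_upwards [isOpen_ne.mem_nhds (one_ne_zero : (1 : ℂ) ≠ 0)] with c hc
      simp only [hG, map_smul]
      exact hF.homogeneous c hc _ (hτL ▸ hτ)
    have h5 := h1.unique h4
    rwa [one_smul] at h5
  · intro k R m hR hu hm
    have hv0 : uvec (wdir k) 0 = uvec 0 0 := uvec_zero _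
    rw [hv0] at hu
    have hord : 1 ≤ ord k := by rcases k with k | k <;> simp [ord]
    refine chain hGd hord hR hu ?_
    have e1 : ∀ᶠ t : ℂ in 𝓝 0, ‖t‖ ≤ 1 / 16 := by
      filter_upwards [Metric.ball_mem_nhds (0 : ℂ) (by norm_num : (0 : ℝ) < 1 / 16)] with t ht
      simpa using (mem_ball_zero_iff.1 ht).le
    have e2 : ∀ᶠ t : ℂ in 𝓝 0, pt h k t ∈ U := by
      have := (continuous_pt (h := h) k).continuousAt (x := (0 : ℂ))
      rw [ContinuousAt, pt_zero] at this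
      exact this.eventually_mem hU
    have e3 : ∀ᶠ t : ℂ in 𝓝 0, Lmap h (uvec (wdir k) t) ∈ W := by
      have h1 : ContinuousAt (fun t : ℂ => Lmap h (uvec (wdir k) t)) 0 :=
        (Lmap h).continuous.continuousAt.comp (continuousAt_uvec k)
      refine h1.eventually_mem (hW.isOpen.mem_nhds ?_)
      rw [hv0]
      exact hτL ▸ hτ
    have e4 : ∀ᶠ t : ℂ in 𝓝 0, Near (ent (pt h k t)) := by
      have h1 : ContinuousAt (fun t : ℂ => ent (pt h k t)) 0 :=
        continuous_ent.continuousAt.comp (continuous_pt (h := h) k).continuousAt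
      refine h1.eventually_mem (isOpen_near.mem_nhds ?_)
      change Near (ent (pt h k 0))
      rw [pt_zero]
      exact near_tau0
    filter_upwards [e1, e2, e3, e4] with t h1 h2 h3 h4
    have e5 : thetaVec (pt h k t) = Lmap h (uvec (wdir k) t) := thetaVec_pt k h1
    have e6 : G (uvec (wdir k) t) = φ (ent (pt h k t)) := by
      rw [hG]
      beta_reduce
      rw [← e5, ← hUF _ h2 (by rw [e5]; exact h3), (extend_near hφ h4).2]
    have e7 : G (uvec 0 0) = φ (ent (tau0 h)) := by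
      rw [hG]
      beta_reduce
      rw [← hτL, ← hUF _ (mem_of_mem_nhds hU) hτ, (extend_near hφ near_tau0).2]
    rw [e6, e7]
    exact hm t

lemma phiA_inl (i k : Fin 6) (t : ℂ) :
    phiA i (ent (pt h (Sum.inl k) t)) - phiA i (ent (tau0 h))
      = (Pi.single k (1 : ℂ) : Fin 6 → ℂ) i * t ^ ord (Sum.inl k) := by
  simp only [phiA, ent_pt, ent_tau0, blk_ll, line, wdir, blockdir_pA, ord, pow_one]
  ring

lemma phiA_inr (i : Fin 6) (k : Fin 10) (t : ℂ) :
    phiA i (ent (pt h (Sum.inr k) t)) - phiA i (ent (tau0 h)) = 0 * t ^ ord (Sum.inr k) := by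
  simp only [phiA, ent_pt, ent_tau0, blk_ll, line, wdir, off_pA]
  ring

lemma phiB_inl (j : Fin 10) (k : Fin 6) (t : ℂ) :
    phiB j (ent (pt h (Sum.inl k) t)) - phiB j (ent (tau0 h)) = 0 * t ^ ord (Sum.inl k) := by
  simp only [phiB, ent_pt, ent_tau0, blk_ll, line, wdir, blockdir_pO]
  ring

lemma phiB_inr (j k : Fin 10) (t : ℂ) :
    phiB j (ent (pt h (Sum.inr k) t)) - phiB j (ent (tau0 h))
      = (vB k (pB j).1 * vB k (pB j).2) * t ^ ord (Sum.inr k) := by
  simp only [phiB, ent_pt, ent_tau0, blk_ll, line, wdir, off_pO, B4_pO, ord]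
  ring

/-- **Key theorem.** Not every holomorphic function on `𝒜_g(2,4)` near the base point comes
from the projective space. -/
theorem key (H : ∀ φ : (Fin (4 + h) → Fin (4 + h) → ℂ) → ℂ, SignInv φ →
    ∃ (W : Set ((Fin (4 + h) → Fin 2) → ℂ)) (F : ((Fin (4 + h) → Fin 2) → ℂ) → ℂ),
      IsOpenP W ∧ thetaVec (tau0 h) ∈ W ∧ IsHolP W F ∧ ∃ U ∈ 𝓝 (tau0 h),
        ∀ τ ∈ U, thetaVec τ ∈ W → extend φ τ = F (thetaVec τ)) : False := by
  choose R hRc hRu using exists_R
  -- a nontrivial relation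
  let Λ : ((K → ℂ) × ℂ) →ₗ[ℂ] ((Fin 4 → Fin 2) → ℂ) :=
    (∑ k : K, (LinearMap.toSpanSingleton ℂ _ (R k 0)).comp
      ((LinearMap.proj k).comp (LinearMap.fst ℂ (K → ℂ) ℂ)))
      - (LinearMap.toSpanSingleton ℂ _ (uvec 0 0)).comp (LinearMap.snd ℂ (K → ℂ) ℂ)
  have hΛ : ∀ c : K → ℂ, ∀ l : ℂ, Λ (c, l) = (∑ k, c k • R k 0) - l • uvec 0 0 := by
    intro c l
    simp [Λ, LinearMap.sum_apply]
  have hker : LinearMap.ker Λ ≠ ⊥ := by
    refine LinearMap.ker_ne_bot_of_finrank_lt ?_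
    simp [Module.finrank_prod]
  obtain ⟨⟨c, l⟩, hmem, hne⟩ := Submodule.exists_mem_ne_zero_of_ne_bot hker
  rw [LinearMap.mem_ker, hΛ] at hmem
  have hrel : ∀ G' : ((Fin 4 → Fin 2) → ℂ) →L[ℂ] ℂ, G' (uvec 0 0) = 0 →
      ∑ k, c k * G' (R k 0) = 0 := by
    intro G' hG'
    have := congrArg G' hmem
    rw [map_sub, map_sum, map_smul, hG', smul_zero, sub_zero, map_zero] at this
    simpa using this
  have hc : c = 0 := by
    refine no_relation c (fun i => ?_) (fun j => ?_)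
    · obtain ⟨W, F, hW, hτ, hF, U, hU, hUF⟩ := H (phiA i) (signInv_phiA i)
      obtain ⟨G', hG0, hG⟩ := exists_functional (signInv_phiA i) hW hτ hF hU hUF
      have h1 := hrel G' hG0
      rw [Fintype.sum_sum_type] at h1
      have h2 : ∀ k : Fin 6, G' (R (Sum.inl k) 0) = (Pi.single k (1 : ℂ) : Fin 6 → ℂ) i :=
        fun k => hG _ _ _ (hRc _) (hRu _) (phiA_inl i k)
      have h3 : ∀ k : Fin 10, G' (R (Sum.inr k) 0) = 0 :=
        fun k => hG _ _ _ (hRc _) (hRu _) (phiA_inr i k)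
      simpa [h2, h3] using h1
    · obtain ⟨W, F, hW, hτ, hF, U, hU, hUF⟩ := H (phiB j) (signInv_phiB j)
      obtain ⟨G', hG0, hG⟩ := exists_functional (signInv_phiB j) hW hτ hF hU hUF
      have h1 := hrel G' hG0
      rw [Fintype.sum_sum_type] at h1
      have h2 : ∀ k : Fin 6, G' (R (Sum.inl k) 0) = 0 :=
        fun k => hG _ _ _ (hRc _) (hRu _) (phiB_inl j k)
      have h3 : ∀ k : Fin 10, G' (R (Sum.inr k) 0) = vB k (pB j).1 * vB k (pB j).2 :=
        fun k => hG _ _ _ (hRc _) (hRu _) (phiB_inr j k)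
      simpa [h2, h3] using h1
  have hl : l = 0 := by
    rw [hc] at hmem
    have h1 : l • uvec 0 0 = 0 := by simpa using hmem
    rcases smul_eq_zero.1 h1 with h2 | h2
    · exact h2
    · exact absurd h2 (uvec_zero_ne 0)
  exact hne (by rw [hc, hl]; rfl)

theorem not_isIsoOntoImageNear : ¬ IsIsoOntoImageNear (4 + h) (tau0 h) := by
  rintro ⟨U, hU, hτU, hiso⟩
  refine key (h := h) fun φ hφ => ?_
  -- shrink `U` to the orbit set
  have hO : IsOpenA (4 + h) (orbitSet h) := isOpenA_orbitSet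
  have hτO : tau0 h ∈ orbitSet h := (extend_near hφ near_tau0).1
  have hU' : IsOpenA (4 + h) (U ∩ orbitSet h) :=
    ⟨hU.isOpen.inter hO.isOpen, fun τ hτ => hU.subset hτ.1,
      fun τ hτ τ' hτ' hs => ⟨hU.stable τ hτ.1 τ' hτ' hs, hO.stable τ hτ.2 τ' hτ' hs⟩⟩
  have hf : IsHolA (4 + h) (U ∩ orbitSet h) (extend φ) :=
    ⟨fun τ hτ τ' hτ' hs => (isHolA_extend hφ).invariant τ hτ.2 τ' hτ'.2 hs,
      fun τ hτ => (isHolA_extend hφ).analytic τ hτ.2⟩
  obtain ⟨W, F, hW, hτW, hF, hWF⟩ :=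
    hiso.holomorphic _ Set.inter_subset_left hU' _ hf (tau0 h) ⟨hτU, hτO⟩
  exact ⟨W, F, hW, hτW, hF, U ∩ orbitSet h, hU'.isOpen.mem_nhds ⟨hτU, hτO⟩, hWF⟩

theorem not_isEmbedding : ¬ IsEmbedding (4 + h) := by
  intro hE
  refine key (h := h) fun φ hφ => ?_
  have hO : IsOpenA (4 + h) (orbitSet h) := isOpenA_orbitSet
  have hτO : tau0 h ∈ orbitSet h := (extend_near hφ near_tau0).1
  obtain ⟨W, F, hW, hτW, hF, hWF⟩ :=
    hE.holomorphic _ hO.subset hO _ (isHolA_extend hφ) (tau0 h) hτO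
  exact ⟨W, F, hW, hτW, hF, orbitSet h, hO.isOpen.mem_nhds hτO, hWF⟩


theorem exists_function : ∃ (U : Set (SymMat (4 + h))) (f : SymMat (4 + h) → ℂ),
    IsOpenA (4 + h) U ∧ tau0 h ∈ U ∧ IsHolA (4 + h) U f ∧
      ∀ (W : Set ((Fin (4 + h) → Fin 2) → ℂ)) (F : ((Fin (4 + h) → Fin 2) → ℂ) → ℂ),
        IsOpenP W → thetaVec (tau0 h) ∈ W → IsHolP W F →
          ¬ ∀ᶠ τ in 𝓝 (tau0 h), f τ = F (thetaVec τ) := by
  by_contra hcon
  push Not at hcon
  refine key (h := h) fun φ hφ => ?_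
  have hO : IsOpenA (4 + h) (orbitSet h) := isOpenA_orbitSet
  have hτO : tau0 h ∈ orbitSet h := (extend_near hφ near_tau0).1
  obtain ⟨W, F, hW, hτW, hF, hWF⟩ := hcon _ (extend φ) hO hτO (isHolA_extend hφ)
  exact ⟨W, F, hW, hτW, hF, _, hWF, fun τ hτ _ => hτ⟩

end Pool.Agent.Helper34.ThetaMap
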