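import Pool.Agent.Helper34.ThetaMap.Block

/-!
# Theta constants of genus 4 along lines through the base point
-/

open Complex Matrix Filter Topology

namespace Pool.Agent.Helper34.ThetaMap

/-- the real base matrix -/
noncomputable def T4 : Fin 4 → Fin 4 → ℝ :=
  ![![1, 1/4, 0, 0], ![1/4, 1, 0, 0], ![0, 0, 1, 1/4], ![0, 0, 1/4, 1]]

/-- the base point in genus 4 -/
noncomputable def B4 : Fin 4 → Fin 4 → ℂ := fun i j => I * (T4 i j : ℂ)

/-- a line through the base point -/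
noncomputable def line (w : Fin 4 → Fin 4 → ℂ) (t : ℂ) : Fin 4 → Fin 4 → ℂ :=
  fun i j => B4 i j + t * w i j

lemma coer_line {w : Fin 4 → Fin 4 → ℂ} (hw : ∀ i j, ‖w i j‖ ≤ 1) {t : ℂ} (ht : ‖t‖ ≤ 1 / 16) :
    Coer (1 / 2) (line w t) := by
  intro x
  have h1 : ∑ i, ∑ j, x i * (line w t i j).im * x j
      = ∑ i, ∑ j, x i * T4 i j * x j + ∑ i, ∑ j, x i * (t * w i j).im * x j := by
    simp only [← Finset.sum_add_distrib]
    refine Finset.sum_congr rfl fun i _ => Finset.sum_congr rfl fun j _ => ?_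
    have : (line w t i j).im = T4 i j + (t * w i j).im := by
      simp [line, B4]
    rw [this]
    ring
  have h2 : ∀ i j, -((1 / 16) * (|x i| * |x j|)) ≤ x i * (t * w i j).im * x j := by
    intro i j
    have h3 : |(t * w i j).im| ≤ 1 / 16 := by
      calc |(t * w i j).im| ≤ ‖t * w i j‖ := Complex.abs_im_le_norm _
        _ = ‖t‖ * ‖w i j‖ := norm_mul _ _
        _ ≤ (1 / 16) * 1 := mul_le_mul ht (hw i j) (norm_nonneg _) (by norm_num)
        _ = 1 / 16 := by norm_num
    have h4 : |x i * (t * w i j).im * x j| ≤ (1 / 16) * (|x i| * |x j|) := by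
      rw [abs_mul, abs_mul]
      nlinarith [abs_nonneg (x i), abs_nonneg (x j), mul_nonneg (abs_nonneg (x i)) (abs_nonneg (x j))]
    have := neg_abs_le (x i * (t * w i j).im * x j)
    linarith
  have h3 : -(1 / 4) * ∑ i, x i ^ 2 ≤ ∑ i, ∑ j, x i * (t * w i j).im * x j := by
    have h4 : ∑ i : Fin 4, ∑ j : Fin 4, -((1 / 16) * (|x i| * |x j|))
        ≤ ∑ i, ∑ j, x i * (t * w i j).im * x j :=
      Finset.sum_le_sum fun i _ => Finset.sum_le_sum fun j _ => h2 i j
    refine le_trans ?_ h4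
    simp only [Fin.sum_univ_four]
    have e : ∀ i, x i ^ 2 = |x i| ^ 2 := fun i => (sq_abs _).symm
    rw [e 0, e 1, e 2, e 3]
    nlinarith [sq_nonneg (|x 0| - |x 1|), sq_nonneg (|x 0| - |x 2|), sq_nonneg (|x 0| - |x 3|),
      sq_nonneg (|x 1| - |x 2|), sq_nonneg (|x 1| - |x 3|), sq_nonneg (|x 2| - |x 3|)]
  have h5 : (3 / 4) * ∑ i, x i ^ 2 ≤ ∑ i, ∑ j, x i * T4 i j * x j := by
    simp only [Fin.sum_univ_four, T4]
    simp
    nlinarith [sq_nonneg (x 0 + x 1), sq_nonneg (x 2 + x 3)]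
  rw [h1]
  nlinarith

/-- the vector of theta constants along a line -/
noncomputable def uvec (w : Fin 4 → Fin 4 → ℂ) (t : ℂ) : (Fin 4 → Fin 2) → ℂ :=
  fun σ => Theta σ (Matrix.of (line w t))

lemma differentiableOn_uvec {w : Fin 4 → Fin 4 → ℂ} (hw : ∀ i j, ‖w i j‖ ≤ 1) :
    DifferentiableOn ℂ (uvec w) (Metric.ball 0 (1 / 16)) := by
  rw [differentiableOn_pi]
  intro σ
  have h : DifferentiableOn ℂ (fun t => ∑' n, trm σ (line w t) n) (Metric.ball 0 (1 / 16)) := by
    refine differentiableOn_tsum_of_summable_norm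
      (summable_gbound (c := 1 / 2) (by norm_num) σ) ?_ Metric.isOpen_ball ?_
    · intro n
      refine Differentiable.differentiableOn ?_
      unfold trm line
      fun_prop
    · intro n t ht
      refine norm_trm_le σ (coer_line hw ?_) n
      simpa using (mem_ball_zero_iff.1 ht).le
  refine h.congr fun t _ => ?_
  exact Theta_eq σ _

lemma uvec_zero_ne (w : Fin 4 → Fin 4 → ℂ) : uvec w 0 ≠ 0 := by
  intro h0
  have h1 : Theta (0 : Fin 4 → Fin 2) (Matrix.of (line w 0)) = 0 := congrFun h0 0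
  rw [Theta_eq] at h1
  have e : line w 0 = line 0 0 := by
    funext i j
    simp [line]
  rw [e] at h1
  have hr : ∀ n, trm (0 : Fin 4 → Fin 2) (line 0 0) n
      = ((Real.exp (-(2 * Real.pi) * ∑ i, ∑ j, xv 0 n i * T4 i j * xv 0 n j) : ℝ) : ℂ) := by
    intro n
    rw [trm, Complex.ofReal_exp]
    congr 1
    push_cast
    have e2 : ∀ i j, (xv 0 n i : ℂ) * line 0 0 i j * (xv 0 n j : ℂ)
        = I * ((xv 0 n i : ℂ) * (T4 i j : ℂ) * (xv 0 n j : ℂ)) := by
      intro i j
      simp [line, B4]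
      ring
    simp only [e2, ← Finset.mul_sum]
    linear_combination (2 * Real.pi * ∑ i, ∑ j, (xv 0 n i : ℂ) * (T4 i j : ℂ) * (xv 0 n j : ℂ)) *
      Complex.I_mul_I
  have hs : Summable fun n => ‖trm (0 : Fin 4 → Fin 2) (line 0 0) n‖ :=
    summable_norm_trm (c := 1 / 2) (by norm_num) 0 (coer_line (by simp) (by simp))
  simp only [hr, Complex.norm_real] at hs
  have hs' : Summable fun n : Fin 4 → ℤ =>
      Real.exp (-(2 * Real.pi) * ∑ i, ∑ j, xv 0 n i * T4 i j * xv 0 n j) := by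
    refine hs.congr fun n => ?_
    rw [Real.norm_eq_abs, abs_of_pos (Real.exp_pos _)]
  simp only [hr] at h1
  rw [← Complex.ofReal_tsum] at h1
  have h2 := Complex.ofReal_eq_zero.1 h1
  have h3 := hs'.tsum_pos (fun n => (Real.exp_pos _).le) 0 (Real.exp_pos _)
  linarith


/-- the signs `(1,1,-1,-1)` -/
def sg4 : Fin 4 → ℤ := ![1, 1, -1, -1]

/-- sign change of the last two coordinates of `n + σ/2` -/
def flip (σ : Fin 4 → Fin 2) (n : Fin 4 → ℤ) : Fin 4 → ℤ :=
  ![n 0, n 1, -n 2 - (σ 2 : ℕ), -n 3 - (σ 3 : ℕ)]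

lemma flip_flip (σ : Fin 4 → Fin 2) (n : Fin 4 → ℤ) : flip σ (flip σ n) = n := by
  funext i
  fin_cases i <;> simp [flip]

/-- `flip` as an equivalence -/
def flipEquiv (σ : Fin 4 → Fin 2) : (Fin 4 → ℤ) ≃ (Fin 4 → ℤ) where
  toFun := flip σ
  invFun := flip σ
  left_inv := flip_flip σ
  right_inv := flip_flip σ

lemma xv_flip (σ : Fin 4 → Fin 2) (n : Fin 4 → ℤ) (i : Fin 4) :
    xv σ (flip σ n) i = (sg4 i : ℝ) * xv σ n i := by
  fin_cases i <;> simp [flip, sg4, xv] <;> ring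

/-- off-diagonal-block directions are odd for the sign change -/
lemma uvec_neg {w : Fin 4 → Fin 4 → ℂ} (hw : ∀ i j, (sg4 i : ℂ) * sg4 j * w i j = -w i j) (t : ℂ) :
    uvec w (-t) = uvec w t := by
  funext σ
  change Theta σ (Matrix.of (line w (-t))) = Theta σ (Matrix.of (line w t))
  rw [Theta_eq, Theta_eq, ← (flipEquiv σ).tsum_eq]
  refine tsum_congr fun n => ?_
  change trm σ (line w (-t)) (flip σ n) = trm σ (line w t) n
  rw [trm, trm]
  congr 2
  refine Finset.sum_congr rfl fun i _ => Finset.sum_congr rfl fun j _ => ?_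
  rw [xv_flip, xv_flip]
  have h1 : (sg4 i : ℂ) * sg4 j * B4 i j = B4 i j := by
    fin_cases i <;> fin_cases j <;> simp [sg4, B4, T4]
  have h2 := hw i j
  simp only [line]
  push_cast
  linear_combination ((xv σ n i : ℂ) * (xv σ n j : ℂ)) * h1
    - t * ((xv σ n i : ℂ) * (xv σ n j : ℂ)) * h2

/-- first order expansion -/
lemma exists_first {w : Fin 4 → Fin 4 → ℂ} (hw : ∀ i j, ‖w i j‖ ≤ 1) :
    ∃ R : ℂ → ((Fin 4 → Fin 2) → ℂ), ContinuousAt R 0 ∧
      ∀ t, uvec w t = uvec w 0 + t ^ 1 • R t := by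
  have hd : DifferentiableAt ℂ (uvec w) 0 :=
    (differentiableOn_uvec hw).differentiableAt (Metric.ball_mem_nhds _ (by norm_num))
  refine ⟨dslope (uvec w) 0, continuousAt_dslope_same.2 hd, fun t => ?_⟩
  have := sub_smul_dslope (uvec w) 0 t
  rw [sub_zero] at this
  rw [pow_one, this]
  abel

/-- second order expansion in the off-diagonal-block directions -/
lemma exists_second {w : Fin 4 → Fin 4 → ℂ} (hw : ∀ i j, ‖w i j‖ ≤ 1)
    (hw' : ∀ i j, (sg4 i : ℂ) * sg4 j * w i j = -w i j) :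
    ∃ R : ℂ → ((Fin 4 → Fin 2) → ℂ), ContinuousAt R 0 ∧
      ∀ t, uvec w t = uvec w 0 + t ^ 2 • R t := by
  have hnh : Metric.ball (0 : ℂ) (1 / 16) ∈ 𝓝 0 := Metric.ball_mem_nhds _ (by norm_num)
  have hd : DifferentiableAt ℂ (uvec w) 0 := (differentiableOn_uvec hw).differentiableAt hnh
  have hd1 : DifferentiableOn ℂ (dslope (uvec w) 0) (Metric.ball 0 (1 / 16)) :=
    (Complex.differentiableOn_dslope hnh).2 (differentiableOn_uvec hw)
  have hd1' : DifferentiableAt ℂ (dslope (uvec w) 0) 0 := hd1.differentiableAt hnh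
  have h0 : dslope (uvec w) 0 0 = 0 := by
    rw [dslope_same]
    -- derivative of an even function vanishes
    have h1 : HasDerivAt (uvec w) (deriv (uvec w) 0) 0 := hd.hasDerivAt
    have h2 : HasDerivAt (fun t => uvec w (-t)) (-deriv (uvec w) 0) 0 := by
      have h3 : HasDerivAt (uvec w) (deriv (uvec w) 0) (-0) := by simpa using h1
      have := h3.scomp (0 : ℂ) (hasDerivAt_neg (0 : ℂ))
      simpa [Function.comp_def] using this
    have h4 : (fun t => uvec w (-t)) = uvec w := funext (uvec_neg hw')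
    rw [h4] at h2
    have h5 := h1.unique h2
    have h6 : (2 : ℂ) • deriv (uvec w) 0 = 0 := by
      rw [two_smul]
      nth_rewrite 1 [h5]
      simp
    simpa using h6
  refine ⟨dslope (dslope (uvec w) 0) 0, continuousAt_dslope_same.2 hd1', fun t => ?_⟩
  have e1 := sub_smul_dslope (uvec w) 0 t
  have e2 := sub_smul_dslope (dslope (uvec w) 0) 0 t
  rw [sub_zero] at e1 e2
  rw [h0, sub_zero] at e2
  rw [pow_two, mul_smul, e2, e1]
  abel

end Pool.Agent.Helper34.ThetaMap
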