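import Pool.Agent.Helper34.ThetaMap.Defs

/-!
# The series of the second-order theta constants
-/

open Complex Matrix Filter Topology

namespace Pool.Agent.Helper34.ThetaMap

/-- The shifted lattice vector `n + σ/2`. -/
noncomputable def xv {m : ℕ} (σ : Fin m → Fin 2) (n : Fin m → ℤ) : Fin m → ℝ :=
  fun i => (n i : ℝ) + ((σ i : ℕ) : ℝ) / 2

/-- The general term of the series. -/
noncomputable def trm {m : ℕ} (σ : Fin m → Fin 2) (M : Fin m → Fin m → ℂ) (n : Fin m → ℤ) : ℂ :=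
  cexp (2 * Real.pi * I * ∑ i, ∑ j, (xv σ n i : ℂ) * M i j * (xv σ n j : ℂ))

lemma Theta_eq {m : ℕ} (σ : Fin m → Fin 2) (M : Fin m → Fin m → ℂ) :
    Theta σ (Matrix.of M) = ∑' n, trm σ M n := by
  unfold Theta theta
  refine tsum_congr fun n => ?_
  unfold trm
  congr 1
  simp only [dotProduct, Matrix.mulVec, Matrix.smul_apply, Matrix.of_apply, Pi.add_apply,
    Pi.smul_apply, Pi.zero_apply, smul_eq_mul, add_zero, mul_zero, xv, Finset.mul_sum]
  refine Finset.sum_congr rfl fun i _ => Finset.sum_congr rfl fun j _ => ?_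
  push_cast
  ring

lemma norm_trm {m : ℕ} (σ : Fin m → Fin 2) (M : Fin m → Fin m → ℂ) (n : Fin m → ℤ) :
    ‖trm σ M n‖ = Real.exp (-(2 * Real.pi) *
      ∑ i, ∑ j, xv σ n i * (M i j).im * xv σ n j) := by
  rw [trm, Complex.norm_exp]
  congr 1
  have : (2 * Real.pi * I * ∑ i, ∑ j, (xv σ n i : ℂ) * M i j * (xv σ n j : ℂ)).re
      = -(2 * Real.pi) * (∑ i, ∑ j, (xv σ n i : ℂ) * M i j * (xv σ n j : ℂ)).im := by
    rw [mul_assoc, show (2 * (Real.pi : ℂ)) = ((2 * Real.pi : ℝ) : ℂ) by push_cast; ring,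
      Complex.re_ofReal_mul, Complex.I_mul_re]
    ring
  rw [this, Complex.im_sum]
  congr 1
  refine Finset.sum_congr rfl fun i _ => ?_
  rw [Complex.im_sum]
  refine Finset.sum_congr rfl fun j _ => ?_
  simp

/-- coercivity of the imaginary part -/
def Coer {m : ℕ} (c : ℝ) (M : Fin m → Fin m → ℂ) : Prop :=
  ∀ x : Fin m → ℝ, c * ∑ i, x i ^ 2 ≤ ∑ i, ∑ j, x i * (M i j).im * x j

lemma summable_gauss_one {a : ℝ} (ha : 0 < a) (b : ℝ) :
    Summable fun k : ℤ => Real.exp (-a * ((k : ℝ) + b) ^ 2) := by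
  have h1 : Summable fun k : ℤ => ‖jacobiTheta₂_term k ((a * b / Real.pi : ℝ) * I)
      ((a / Real.pi : ℝ) * I)‖ := by
    refine ((summable_jacobiTheta₂_term_iff _ _).2 ?_).norm
    simp
    positivity
  have h2 := h1.mul_left (Real.exp (-a * b ^ 2))
  refine h2.congr fun k => ?_
  rw [norm_jacobiTheta₂_term, ← Real.exp_add]
  congr 1
  have hpi : Real.pi ≠ 0 := Real.pi_ne_zero
  simp
  field_simp
  ring

lemma summable_pi_prod : ∀ (m : ℕ) (f : Fin m → ℤ → ℝ), (∀ i, Summable (f i)) →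
    (∀ i k, 0 ≤ f i k) → Summable fun n : Fin m → ℤ => ∏ i, f i (n i)
  | 0, f, _, _ => by
    have : Finite (Fin 0 → ℤ) := inferInstance
    exact (hasSum_fintype _).summable
  | m + 1, f, hf, hf' => by
    have h1 := summable_pi_prod m (fun i => f i.succ) (fun i => hf _) (fun i => hf' _)
    have h2 := Summable.mul_of_nonneg (hf 0) h1 (fun k => hf' 0 k)
      (fun n => Finset.prod_nonneg fun i _ => hf' _ _)
    rw [← (Fin.consEquiv (fun _ : Fin (m + 1) => ℤ)).summable_iff]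
    refine h2.congr fun x => ?_
    simp [Fin.consEquiv, Fin.prod_univ_succ]

/-- the dominating summable family -/
noncomputable def gbound {m : ℕ} (c : ℝ) (σ : Fin m → Fin 2) (n : Fin m → ℤ) : ℝ :=
  Real.exp (-(2 * Real.pi) * (c * ∑ i, xv σ n i ^ 2))

lemma summable_gbound {m : ℕ} {c : ℝ} (hc : 0 < c) (σ : Fin m → Fin 2) :
    Summable (gbound c σ) := by
  have h := summable_pi_prod m
    (fun i k => Real.exp (-(2 * Real.pi * c) * ((k : ℝ) + ((σ i : ℕ) : ℝ) / 2) ^ 2))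
    (fun i => summable_gauss_one (by positivity) _) (fun i k => (Real.exp_pos _).le)
  refine h.congr fun n => ?_
  rw [gbound, ← Real.exp_sum]
  congr 1
  rw [Finset.mul_sum, Finset.mul_sum]
  exact Finset.sum_congr rfl fun i _ => by rw [xv]; ring

lemma norm_trm_le {m : ℕ} {c : ℝ} (σ : Fin m → Fin 2) {M : Fin m → Fin m → ℂ} (hM : Coer c M)
    (n : Fin m → ℤ) : ‖trm σ M n‖ ≤ gbound c σ n := by
  rw [norm_trm, gbound, Real.exp_le_exp]
  have := hM (xv σ n)
  have hpi : 0 < 2 * Real.pi := by positivity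
  nlinarith

lemma summable_norm_trm {m : ℕ} {c : ℝ} (hc : 0 < c) (σ : Fin m → Fin 2)
    {M : Fin m → Fin m → ℂ} (hM : Coer c M) : Summable fun n => ‖trm σ M n‖ :=
  Summable.of_nonneg_of_le (fun _ => norm_nonneg _) (norm_trm_le σ hM) (summable_gbound hc σ)

end Pool.Agent.Helper34.ThetaMap
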